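import Mathlib

set_option autoImplicit false

namespace Pool.Agent.Results.MP_0543b0_an.DualStrong

section matpart
open Filter Topology Matrix Polynomial
section mat

variable {𝕜 : Type*} [RCLike 𝕜]

/-- nodes -/
def nd (N : ℕ) : Fin N → 𝕜 := fun l => ((l : ℕ) : 𝕜)

lemma nd_inj (N : ℕ) : Function.Injective (nd N : Fin N → 𝕜) := by
  intro a b h
  unfold nd at h
  exact Fin.ext (Nat.cast_injective h)

lemma rowpart (N : ℕ) (C : Finset (Fin N)) (t : Fin N) :
    ∃ c : Fin N → 𝕜, (∀ l, l ∉ C → c l = 0) ∧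
      ∀ i : Fin N, (i : ℕ) < C.card →
        ∑ l, c l * (vandermonde (nd N : Fin N → 𝕜)) l i = if i = t then 1 else 0 := by
  classical
  refine ⟨fun l => if l ∈ C then (Lagrange.basis C (nd N : Fin N → 𝕜) l).coeff (t : ℕ) else 0,
    ?_, ?_⟩
  · intro l hl
    simp [hl]
  · intro i hi
    have hdeg : (X ^ (i : ℕ) : 𝕜[X]).degree < C.card := by
      rw [degree_X_pow]
      exact_mod_cast hi
    have h := Lagrange.eq_interpolate (s := C) (v := (nd N : Fin N → 𝕜))
      (f := (X ^ (i : ℕ) : 𝕜[X])) ((nd_inj N).injOn) hdeg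
    have h2 := congrArg (fun q => q.coeff (t : ℕ)) h
    simp only [Lagrange.interpolate_apply, finsetSum_coeff, coeff_X_pow, eval_pow, eval_X,
      coeff_C_mul] at h2
    have h3 : ∑ l, (if l ∈ C then (Lagrange.basis C (nd N : Fin N → 𝕜) l).coeff (t : ℕ) else 0) *
        (vandermonde (nd N : Fin N → 𝕜)) l i
        = ∑ l ∈ C, (nd N l : 𝕜) ^ (i : ℕ) * (Lagrange.basis C (nd N : Fin N → 𝕜) l).coeff (t : ℕ) := by
      rw [← Finset.sum_filter_add_sum_filter_not Finset.univ (fun l => l ∈ C)]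
      rw [Finset.sum_eq_zero (s := Finset.univ.filter (fun l => ¬ l ∈ C))]
      · rw [add_zero]
        have : Finset.univ.filter (fun l => l ∈ C) = C := by ext; simp
        rw [this]
        apply Finset.sum_congr rfl
        intro l hl
        rw [if_pos hl, vandermonde_apply, mul_comm]
      · intro l hl
        have : l ∉ C := by simpa using hl
        simp [this]
    rw [h3, ← h2]
    by_cases hit : i = t
    · simp [hit]
    · have : ¬ ((t : ℕ) = (i : ℕ)) := fun h => hit (Fin.ext h.symm)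
      simp [hit, this]

lemma colpart (N : ℕ) (C : Finset (Fin N)) (s : Fin N) :
    ∃ (d b : Fin N → 𝕜), (∀ l, l ∈ C → d l = 0) ∧
      (∀ i : Fin N, C.card ≤ (i : ℕ) → b i = if i = s then 1 else 0) ∧
      (vandermonde (nd N : Fin N → 𝕜)) *ᵥ b = d := by
  classical
  set q : 𝕜[X] := Lagrange.interpolate C (nd N : Fin N → 𝕜) (fun l => (nd N l : 𝕜) ^ (s : ℕ)) with hq
  set p : 𝕜[X] := X ^ (s : ℕ) - q with hp
  have hqdeg : q.degree < C.card := Lagrange.degree_interpolate_lt _ ((nd_inj N).injOn)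
  have hCN : C.card ≤ N := by
    have := Finset.card_le_univ C
    simpa using this
  have hqN : q.degree < N := hqdeg.trans_le (by exact_mod_cast hCN)
  have hpdeg : p.degree < N := by
    refine (degree_sub_le _ _).trans_lt (max_lt ?_ hqN)
    rw [degree_X_pow]
    exact_mod_cast s.2
  have hpnat : p.natDegree < N := by
    by_cases h0 : p = 0
    · rw [h0, natDegree_zero]
      exact s.pos
    · rwa [natDegree_lt_iff_degree_lt h0]
  refine ⟨fun l => p.eval (nd N l), fun i => p.coeff i, ?_, ?_, ?_⟩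
  · intro l hl
    show p.eval (nd N l) = 0
    rw [hp, eval_sub, eval_pow, eval_X, hq,
      Lagrange.eval_interpolate_at_node _ ((nd_inj N).injOn) hl, sub_self]
  · intro i hi
    have h1 : q.coeff i = 0 := by
      apply coeff_eq_zero_of_degree_lt
      exact hqdeg.trans_le (by exact_mod_cast hi)
    simp only [hp, coeff_sub, coeff_X_pow, h1, sub_zero]
    by_cases his : i = s
    · simp [his]
    · have : ¬ ((i : ℕ) = (s : ℕ)) := fun h => his (Fin.ext h)
      simp [his, this]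
  · funext l
    rw [mulVec, dotProduct, eval_eq_sum_range' hpnat, Finset.sum_range]
    apply Finset.sum_congr rfl
    intro i _
    rw [vandermonde_apply, mul_comm]

/-- Hierarchically scaled Vandermonde matrices. -/
lemma matrix_lemma (N : ℕ) (η : ℝ) (hη : 0 < η) :
    ∃ H K : Matrix (Fin N) (Fin N) 𝕜, H * K = 1 ∧ K * H = 1 ∧
      (∀ (C : Finset (Fin N)) (t : Fin N), (t : ℕ) < C.card →
        ∃ c : Fin N → 𝕜, (∀ l, l ∉ C → c l = 0) ∧
          ∀ i, ‖∑ l, c l * H l i - (if i = t then 1 else 0)‖ ≤ η) ∧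
      (∀ (C : Finset (Fin N)) (s : Fin N), C.card ≤ (s : ℕ) →
        ∃ d : Fin N → 𝕜, (∀ l, l ∈ C → d l = 0) ∧
          ∀ i, ‖∑ l, d l * K i l - (if i = s then 1 else 0)‖ ≤ η) := by
  classical
  set V : Matrix (Fin N) (Fin N) 𝕜 := vandermonde (nd N) with hV
  have hdet : IsUnit V.det := by
    rw [isUnit_iff_ne_zero, hV, det_vandermonde_ne_zero_iff]
    exact nd_inj N
  have hVV : V * V⁻¹ = 1 := mul_nonsing_inv V hdet
  have hVV' : V⁻¹ * V = 1 := nonsing_inv_mul V hdet
  -- the scaled matrices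
  set H : 𝕜 → Matrix (Fin N) (Fin N) 𝕜 := fun δ => V * diagonal (fun i : Fin N => δ ^ (i : ℕ)) with hH
  set K : 𝕜 → Matrix (Fin N) (Fin N) 𝕜 :=
    fun δ => diagonal (fun i : Fin N => (δ ^ (i : ℕ))⁻¹) * V⁻¹ with hK
  have hHK : ∀ δ : 𝕜, δ ≠ 0 → H δ * K δ = 1 := by
    intro δ hδ
    have h1 : diagonal (fun i : Fin N => δ ^ (i : ℕ)) * diagonal (fun i : Fin N => (δ ^ (i : ℕ))⁻¹)
        = 1 := by
      rw [diagonal_mul_diagonal, ← diagonal_one]
      congr 1
      funext i
      exact mul_inv_cancel₀ (pow_ne_zero _ hδ)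
    calc H δ * K δ = V * (diagonal (fun i : Fin N => δ ^ (i : ℕ)) *
          diagonal (fun i : Fin N => (δ ^ (i : ℕ))⁻¹)) * V⁻¹ := by
          simp only [hH, hK, Matrix.mul_assoc]
      _ = 1 := by rw [h1, Matrix.mul_one, hVV]
  have hKH : ∀ δ : 𝕜, δ ≠ 0 → K δ * H δ = 1 := fun δ hδ =>
    mul_eq_one_comm.mp (hHK δ hδ)
  have hHapp : ∀ δ l i, H δ l i = V l i * δ ^ (i : ℕ) := by
    intro δ l i
    simp only [hH]
    rw [mul_diagonal]
  have hKapp : ∀ δ l i, K δ i l = (δ ^ (i : ℕ))⁻¹ * V⁻¹ i l := by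
    intro δ l i
    simp only [hK]
    rw [diagonal_mul]
  -- eventually statements
  have evA : ∀ (C : Finset (Fin N)) (t : Fin N), ∀ᶠ δ in 𝓝[≠] (0 : 𝕜), (t : ℕ) < C.card →
        ∃ c : Fin N → 𝕜, (∀ l, l ∉ C → c l = 0) ∧
          ∀ i, ‖∑ l, c l * H δ l i - (if i = t then 1 else 0)‖ ≤ η := by
    intro C t
    obtain ⟨c, hc0, hc⟩ := rowpart (𝕜 := 𝕜) N C t
    by_cases ht : (t : ℕ) < C.card
    swap
    · exact Eventually.of_forall (fun δ h => absurd h ht)
    have key : ∀ i : Fin N, ∀ᶠ δ in 𝓝[≠] (0 : 𝕜),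
        ‖∑ l, ((δ ^ (t : ℕ))⁻¹ * c l) * H δ l i - (if i = t then 1 else 0)‖ ≤ η := by
      intro i
      have hsum : ∀ δ : 𝕜, ∑ l, ((δ ^ (t : ℕ))⁻¹ * c l) * H δ l i
          = (δ ^ (t : ℕ))⁻¹ * δ ^ (i : ℕ) * ∑ l, c l * V l i := by
        intro δ
        rw [Finset.mul_sum]
        apply Finset.sum_congr rfl
        intro l _
        rw [hHapp]; ring
      by_cases hi : (i : ℕ) < C.card
      · filter_upwards [self_mem_nhdsWithin] with δ hδ
        have hδ : δ ≠ 0 := hδ
        rw [hsum, hc i hi]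
        by_cases hit : i = t
        · rw [hit, if_pos rfl, mul_one, inv_mul_cancel₀ (pow_ne_zero _ hδ), sub_self, norm_zero]
          exact hη.le
        · rw [if_neg hit, mul_zero, sub_self, norm_zero]
          exact hη.le
      · have hit : ¬ (i = t) := by
          rintro rfl; exact hi ht
        have hlt : (t : ℕ) < i := by omega
        have hT : Tendsto (fun δ : 𝕜 => ‖δ ^ ((i : ℕ) - t) * ∑ l, c l * V l i‖) (𝓝[≠] 0) (𝓝 0) := by
          have h1 : Tendsto (fun δ : 𝕜 => ‖δ ^ ((i : ℕ) - t) * ∑ l, c l * V l i‖) (𝓝 0)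
              (𝓝 ‖(0 : 𝕜) ^ ((i : ℕ) - t) * ∑ l, c l * V l i‖) := by
            apply Continuous.tendsto
            fun_prop
          rw [zero_pow (by omega), zero_mul, norm_zero] at h1
          exact h1.mono_left nhdsWithin_le_nhds
        filter_upwards [self_mem_nhdsWithin, hT.eventually_le_const hη] with δ hδ hle
        have hδ : δ ≠ 0 := hδ
        rw [hsum, if_neg hit, sub_zero]
        have : (δ ^ (t : ℕ))⁻¹ * δ ^ (i : ℕ) = δ ^ ((i : ℕ) - t) := by
          rw [pow_sub₀ _ hδ hlt.le, mul_comm]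
        rw [this]
        exact hle
    filter_upwards [eventually_all.mpr key] with δ hδ _
    exact ⟨fun l => (δ ^ (t : ℕ))⁻¹ * c l, fun l hl => by simp [hc0 l hl], hδ⟩
  have evB : ∀ (C : Finset (Fin N)) (s : Fin N), ∀ᶠ δ in 𝓝[≠] (0 : 𝕜), C.card ≤ (s : ℕ) →
        ∃ d : Fin N → 𝕜, (∀ l, l ∈ C → d l = 0) ∧
          ∀ i, ‖∑ l, d l * K δ i l - (if i = s then 1 else 0)‖ ≤ η := by
    intro C s
    obtain ⟨d, b, hd0, hb, hVb⟩ := colpart (𝕜 := 𝕜) N C s
    by_cases hs : C.card ≤ (s : ℕ)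
    swap
    · exact Eventually.of_forall (fun δ h => absurd h hs)
    have hinv : ∀ i, ∑ l, d l * V⁻¹ i l = b i := by
      intro i
      have h1 : V⁻¹ *ᵥ d = b := by
        rw [← hVb, mulVec_mulVec, hVV', one_mulVec]
      have h2 := congrFun h1 i
      rw [mulVec, dotProduct] at h2
      rw [← h2]
      apply Finset.sum_congr rfl
      intro l _
      ring
    have key : ∀ i : Fin N, ∀ᶠ δ in 𝓝[≠] (0 : 𝕜),
        ‖∑ l, (δ ^ (s : ℕ) * d l) * K δ i l - (if i = s then 1 else 0)‖ ≤ η := by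
      intro i
      have hsum : ∀ δ : 𝕜, ∑ l, (δ ^ (s : ℕ) * d l) * K δ i l
          = δ ^ (s : ℕ) * (δ ^ (i : ℕ))⁻¹ * b i := by
        intro δ
        rw [← hinv i, Finset.mul_sum]
        apply Finset.sum_congr rfl
        intro l _
        rw [hKapp]; ring
      by_cases hi : C.card ≤ (i : ℕ)
      · filter_upwards [self_mem_nhdsWithin] with δ hδ
        have hδ : δ ≠ 0 := hδ
        rw [hsum, hb i hi]
        by_cases his : i = s
        · rw [his, if_pos rfl, mul_one, mul_inv_cancel₀ (pow_ne_zero _ hδ), sub_self, norm_zero]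
          exact hη.le
        · rw [if_neg his, mul_zero, sub_self, norm_zero]
          exact hη.le
      · have his : ¬ (i = s) := by
          rintro rfl; exact hi hs
        have hlt : (i : ℕ) < s := by omega
        have hT : Tendsto (fun δ : 𝕜 => ‖δ ^ ((s : ℕ) - i) * b i‖) (𝓝[≠] 0) (𝓝 0) := by
          have h1 : Tendsto (fun δ : 𝕜 => ‖δ ^ ((s : ℕ) - i) * b i‖) (𝓝 0)
              (𝓝 ‖(0 : 𝕜) ^ ((s : ℕ) - i) * b i‖) := by
            apply Continuous.tendsto
            fun_prop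
          rw [zero_pow (by omega), zero_mul, norm_zero] at h1
          exact h1.mono_left nhdsWithin_le_nhds
        filter_upwards [self_mem_nhdsWithin, hT.eventually_le_const hη] with δ hδ hle
        have hδ : δ ≠ 0 := hδ
        rw [hsum, if_neg his, sub_zero]
        have : δ ^ (s : ℕ) * (δ ^ (i : ℕ))⁻¹ = δ ^ ((s : ℕ) - i) := by
          rw [pow_sub₀ _ hδ hlt.le]
        rw [this]
        exact hle
    filter_upwards [eventually_all.mpr key] with δ hδ _
    exact ⟨fun l => δ ^ (s : ℕ) * d l, fun l hl => by simp [hd0 l hl], hδ⟩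
  have ev : ∀ᶠ δ in 𝓝[≠] (0 : 𝕜), (∀ (C : Finset (Fin N)) (t : Fin N), (t : ℕ) < C.card →
        ∃ c : Fin N → 𝕜, (∀ l, l ∉ C → c l = 0) ∧
          ∀ i, ‖∑ l, c l * H δ l i - (if i = t then 1 else 0)‖ ≤ η) ∧
      (∀ (C : Finset (Fin N)) (s : Fin N), C.card ≤ (s : ℕ) →
        ∃ d : Fin N → 𝕜, (∀ l, l ∈ C → d l = 0) ∧
          ∀ i, ‖∑ l, d l * K δ i l - (if i = s then 1 else 0)‖ ≤ η) ∧ δ ≠ 0 := by
    have h1 := eventually_all.mpr (fun C => eventually_all.mpr (evA C))
    have h2 := eventually_all.mpr (fun C => eventually_all.mpr (evB C))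
    filter_upwards [h1, h2, self_mem_nhdsWithin] with δ a b c
    exact ⟨a, b, c⟩
  obtain ⟨δ, hA, hB, hδ⟩ := ev.exists
  exact ⟨H δ, K δ, hHK δ hδ, hKH δ hδ, hA, hB⟩

end mat
end matpart

open Filter Topology

section core

variable {𝕜 : Type*} [RCLike 𝕜]

/-- a vector in the span of a family lies in the span of a finite initial part -/
lemma span_fin {V : Type*} [AddCommGroup V] [Module 𝕜 V] (f : ℕ → V) (S : Set ℕ) {w : V}
    (hw : w ∈ Submodule.span 𝕜 (f '' S)) : ∃ n, w ∈ Submodule.span 𝕜 (f '' (S ∩ Set.Iio n)) := by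
  have hmono : ∀ {n m : ℕ}, n ≤ m → Submodule.span 𝕜 (f '' (S ∩ Set.Iio n)) ≤
      Submodule.span 𝕜 (f '' (S ∩ Set.Iio m)) := fun h =>
    Submodule.span_mono (Set.image_mono (Set.inter_subset_inter_right _ (Set.Iio_subset_Iio h)))
  induction hw using Submodule.span_induction with
  | mem y hy =>
    obtain ⟨m, hm, rfl⟩ := hy
    exact ⟨m + 1, Submodule.subset_span ⟨m, ⟨hm, Nat.lt_succ_self m⟩, rfl⟩⟩
  | zero => exact ⟨0, Submodule.zero_mem _⟩
  | add y z _ _ hy hz =>
    obtain ⟨n, hn⟩ := hy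
    obtain ⟨m, hm⟩ := hz
    exact ⟨max n m, Submodule.add_mem _ (hmono (le_max_left _ _) hn) (hmono (le_max_right _ _) hm)⟩
  | smul a y _ hy =>
    obtain ⟨n, hn⟩ := hy
    exact ⟨n, Submodule.smul_mem _ _ hn⟩

variable {V : Type*} [NormedAddCommGroup V] [NormedSpace 𝕜 V]
variable (ξ : ℕ → StrongDual 𝕜 V) (f : ℕ → V)

/-- truncated sum operators -/
def ps (r : ℕ) (h : V) : V := ∑ n ∈ Finset.range r, ξ n h • f n

lemma ps_zero (r : ℕ) : ps ξ f r 0 = 0 := by unfold ps; simp

lemma ps_add (r : ℕ) (g h : V) : ps ξ f r (g + h) = ps ξ f r g + ps ξ f r h := by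
  unfold ps
  rw [← Finset.sum_add_distrib]
  apply Finset.sum_congr rfl
  intro n _
  rw [map_add, add_smul]

lemma ps_smul (r : ℕ) (a : 𝕜) (h : V) : ps ξ f r (a • h) = a • ps ξ f r h := by
  unfold ps
  rw [Finset.smul_sum]
  apply Finset.sum_congr rfl
  intro n _
  rw [map_smul, smul_eq_mul, mul_smul]

lemma ps_sub (r : ℕ) (g h : V) : ps ξ f r (g - h) = ps ξ f r g - ps ξ f r h := by
  unfold ps
  rw [← Finset.sum_sub_distrib]
  apply Finset.sum_congr rfl
  intro n _
  rw [map_sub, sub_smul]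

lemma ps_cont (r : ℕ) : Continuous (ps ξ f r) := by
  unfold ps
  apply continuous_finsetSum
  intro n _
  exact (ξ n).continuous.smul continuous_const

lemma ps_mem (r : ℕ) (h : V) : ps ξ f r h ∈ Submodule.span 𝕜 (f '' Set.Iio r) :=
  Submodule.sum_mem _ fun n hn => Submodule.smul_mem _ _
    (Submodule.subset_span ⟨n, Finset.mem_range.mp hn, rfl⟩)

lemma ps_norm (r : ℕ) (h : V) :
    ‖ps ξ f r h‖ ≤ (∑ n ∈ Finset.range r, ‖ξ n‖ * ‖f n‖) * ‖h‖ := by
  unfold ps
  rw [Finset.sum_mul]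
  refine (norm_sum_le _ _).trans (Finset.sum_le_sum fun n _ => ?_)
  rw [norm_smul]
  calc ‖ξ n h‖ * ‖f n‖ ≤ (‖ξ n‖ * ‖h‖) * ‖f n‖ :=
        mul_le_mul_of_nonneg_right ((ξ n).le_opNorm _) (norm_nonneg _)
    _ = ‖ξ n‖ * ‖f n‖ * ‖h‖ := by ring

/-- norming gap -/
lemma norm_gap
    (hnorm : ∀ u : V, ‖u‖ = 1 → ∃ R, ∃ z : StrongDual 𝕜 V, ‖z‖ ≤ 1 ∧
      (∀ w, (∀ n < R, ξ n w = 0) → z w = 0) ∧ 1 / 2 < ‖z u‖) (q : ℕ) :
    ∃ R, q < R ∧ ∀ u ∈ Submodule.span 𝕜 (f '' Set.Iio q), ∀ w : V,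
      (∀ n < R, ξ n w = 0) → ‖u‖ ≤ 2 * ‖u + w‖ := by
  classical
  set F : Submodule 𝕜 V := Submodule.span 𝕜 (f '' Set.Iio q) with hF
  have hfin : FiniteDimensional 𝕜 F := FiniteDimensional.span_of_finite 𝕜 ((Set.finite_Iio q).image _)
  have : ProperSpace F := FiniteDimensional.proper_rclike 𝕜 F
  set U : ℕ → Set F := fun n =>
    {u | ∃ z : StrongDual 𝕜 V, ‖z‖ ≤ 1 ∧ (∀ w, (∀ m < n, ξ m w = 0) → z w = 0) ∧
      1 / 2 < ‖z (u : V)‖} with hU
  have hUo : ∀ n, IsOpen (U n) := by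
    intro n
    have : U n = ⋃ z ∈ {z : StrongDual 𝕜 V | ‖z‖ ≤ 1 ∧ (∀ w, (∀ m < n, ξ m w = 0) → z w = 0)},
        {u : F | 1 / 2 < ‖z (u : V)‖} := by
      ext u
      simp only [hU, Set.mem_iUnion, Set.mem_ofPred_eq]
      constructor
      · rintro ⟨z, h1, h2, h3⟩; exact ⟨z, ⟨h1, h2⟩, h3⟩
      · rintro ⟨z, ⟨h1, h2⟩, h3⟩; exact ⟨z, h1, h2, h3⟩
    rw [this]
    apply isOpen_biUnion
    intro z _
    exact isOpen_lt continuous_const (z.continuous.comp continuous_subtype_val).norm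
  have hUm : Monotone U := by
    rintro n m hnm u ⟨z, h1, h2, h3⟩
    exact ⟨z, h1, fun w hw => h2 w (fun k hk => hw k (lt_of_lt_of_le hk hnm)), h3⟩
  have hcov : Metric.sphere (0 : F) 1 ⊆ ⋃ n, U n := by
    intro u hu
    have hu1 : ‖(u : V)‖ = 1 := by
      have h1 : dist u 0 = 1 := hu
      rw [dist_zero_right] at h1
      exact h1
    obtain ⟨R, z, hz1, hz2, hz3⟩ := hnorm u hu1
    exact Set.mem_iUnion.mpr ⟨R, z, hz1, hz2, hz3⟩
  obtain ⟨n, hn⟩ := (isCompact_sphere (0 : F) 1).elim_directed_cover U hUo hcov hUm.directed_le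
  refine ⟨max n (q + 1), lt_of_lt_of_le (Nat.lt_succ_self q) (le_max_right _ _), ?_⟩
  intro u hu w hw
  by_cases h0 : u = 0
  · rw [h0, norm_zero]; positivity
  · have hpos : 0 < ‖u‖ := norm_pos_iff.mpr h0
    set a : 𝕜 := ((‖u‖ : ℝ) : 𝕜) with ha
    have ha0 : a ≠ 0 := by
      rw [ha]; exact_mod_cast hpos.ne'
    have hna : ‖a‖ = ‖u‖ := by
      rw [ha, RCLike.norm_ofReal, abs_of_pos hpos]
    set g : F := ⟨a⁻¹ • u, Submodule.smul_mem _ _ hu⟩ with hg
    have hgn : ‖g‖ = 1 := by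
      show ‖a⁻¹ • u‖ = 1
      rw [norm_smul, norm_inv, hna, inv_mul_cancel₀ hpos.ne']
    obtain ⟨z, hz1, hz2, hz3⟩ := hn (show g ∈ Metric.sphere (0 : F) 1 by
      show dist g 0 = 1
      rw [dist_zero_right]; exact hgn)
    have hwz : z w = 0 := hz2 w (fun m hm => hw m (lt_of_lt_of_le hm (le_max_left _ _)))
    have h1 : ‖z (a⁻¹ • u)‖ = ‖u‖⁻¹ * ‖z u‖ := by
      rw [map_smul, norm_smul, norm_inv, hna]
    have h2 : 1 / 2 < ‖u‖⁻¹ * ‖z u‖ := by rw [← h1]; exact hz3
    have h3 : ‖z u‖ ≤ ‖u + w‖ := by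
      have : z u = z (u + w) := by rw [map_add, hwz, add_zero]
      rw [this]
      calc _ ≤ ‖z‖ * ‖u + w‖ := z.le_opNorm _
        _ ≤ 1 * ‖u + w‖ := mul_le_mul_of_nonneg_right hz1 (norm_nonneg _)
        _ = _ := one_mul _
    rw [inv_mul_eq_div, lt_div_iff₀ hpos] at h2
    linarith

variable (hbio : ∀ i j, ξ i (f j) = if i = j then (1 : 𝕜) else 0)
include hbio

lemma ps_fix {r : ℕ} {g : V} (hg : g ∈ Submodule.span 𝕜 (f '' Set.Iio r)) :
    ps ξ f r g = g := by
  induction hg using Submodule.span_induction with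
  | mem y hy =>
    obtain ⟨m, hm, rfl⟩ := hy
    unfold ps
    rw [Finset.sum_eq_single m]
    · rw [hbio, if_pos rfl, one_smul]
    · intro n _ hnm
      rw [hbio, if_neg hnm, zero_smul]
    · intro h; exact absurd (Finset.mem_range.mpr hm) h
  | zero => exact ps_zero ξ f r
  | add y z _ _ hy hz => rw [ps_add, hy, hz]
  | smul a y _ hy => rw [ps_smul, hy]

lemma res_mem {r : ℕ} {g : V} (hg : g ∈ Submodule.span 𝕜 (Set.range f)) :
    g - ps ξ f r g ∈ Submodule.span 𝕜 (f '' Set.Ici r) := by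
  induction hg using Submodule.span_induction with
  | mem y hy =>
    obtain ⟨m, rfl⟩ := hy
    by_cases hm : m < r
    · rw [ps_fix ξ f hbio (Submodule.subset_span ⟨m, hm, rfl⟩), sub_self]
      exact Submodule.zero_mem _
    · have : ps ξ f r (f m) = 0 := by
        unfold ps
        apply Finset.sum_eq_zero
        intro n hn
        have hn' := Finset.mem_range.mp hn
        have : ¬ (n = m) := by omega
        rw [hbio, if_neg this, zero_smul]
      rw [this, sub_zero]
      exact Submodule.subset_span ⟨m, by simpa using hm, rfl⟩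
  | zero =>
    rw [ps_zero, sub_zero]
    exact Submodule.zero_mem _
  | add y z _ _ hy hz =>
    rw [ps_add]
    have h2 : y + z - (ps ξ f r y + ps ξ f r z) = (y - ps ξ f r y) + (z - ps ξ f r z) := by abel
    rw [h2]
    exact Submodule.add_mem _ hy hz
  | smul a y _ hy =>
    rw [ps_smul, ← smul_sub]
    exact Submodule.smul_mem _ _ hy

variable (hf : Dense ((Submodule.span 𝕜 (Set.range f) : Submodule 𝕜 V) : Set V))
include hf

lemma res_approx (r : ℕ) (h : V) {δ : ℝ} (hδ : 0 < δ) :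
    ∃ n, ∃ v ∈ Submodule.span 𝕜 (f '' Set.Ico r n), ‖h - ps ξ f r h - v‖ < δ := by
  have hc : Continuous (fun g : V => g - ps ξ f r g) :=
    continuous_id.sub (ps_cont ξ f r)
  have h1 : h - ps ξ f r h ∈ closure ((Submodule.span 𝕜 (f '' Set.Ici r) :
      Submodule 𝕜 V) : Set V) :=
    map_mem_closure (f := fun g : V => g - ps ξ f r g) hc (hf h)
      (fun g hg => res_mem ξ f hbio hg)
  obtain ⟨v, hv, hd⟩ := Metric.mem_closure_iff.mp h1 δ hδ
  obtain ⟨n, hn⟩ := span_fin f _ hv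
  refine ⟨n, v, ?_, by rwa [← dist_eq_norm]⟩
  have : Set.Ici r ∩ Set.Iio n = Set.Ico r n := rfl
  rwa [this] at hn

/-- representing gap -/
lemma rep_gap (r : ℕ) : ∃ q, r < q ∧ ∀ h : V,
    ∃ v ∈ Submodule.span 𝕜 (f '' Set.Ico r q), ‖ps ξ f r h + v‖ ≤ 2 * ‖h‖ := by
  classical
  set Φ : (Fin r → 𝕜) → V := fun c => ∑ i, c i • f i with hΦ
  have hΦc : Continuous Φ := by
    apply continuous_finsetSum
    intro i _
    exact (continuous_apply i).smul continuous_const
  set co : V → (Fin r → 𝕜) := fun h i => ξ i h with hco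
  have hΦco : ∀ h, Φ (co h) = ps ξ f r h := by
    intro h
    simp only [hΦ, hco, ps]
    rw [Finset.sum_range]
  set S : Set (Fin r → 𝕜) := co '' {h | ‖h‖ ≤ 1} with hS
  have hSb : Bornology.IsBounded S := by
    rw [isBounded_iff_forall_norm_le]
    refine ⟨∑ i : Fin r, ‖ξ i‖, ?_⟩
    rintro _ ⟨h, hh, rfl⟩
    rw [pi_norm_le_iff_of_nonneg (Finset.sum_nonneg fun _ _ => norm_nonneg _)]
    intro i
    calc ‖ξ i h‖ ≤ ‖ξ i‖ * ‖h‖ := (ξ i).le_opNorm _
      _ ≤ ‖ξ i‖ * 1 := mul_le_mul_of_nonneg_left hh (norm_nonneg _)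
      _ = ‖ξ i‖ := mul_one _
      _ ≤ ∑ i : Fin r, ‖ξ i‖ :=
        Finset.single_le_sum (f := fun i : Fin r => ‖ξ i‖) (fun _ _ => norm_nonneg _)
          (Finset.mem_univ i)
  have hK : IsCompact (closure S) := hSb.isCompact_closure
  set T : ℕ → Set (Fin r → 𝕜) := fun n =>
    {c | ∃ v ∈ Submodule.span 𝕜 (f '' Set.Ico r n), ‖Φ c + v‖ < 2} with hT
  have hTo : ∀ n, IsOpen (T n) := by
    intro n
    have : T n = ⋃ v ∈ (Submodule.span 𝕜 (f '' Set.Ico r n) : Set V),
        {c | ‖Φ c + v‖ < 2} := by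
      ext c; simp [hT]
    rw [this]
    apply isOpen_biUnion
    intro v _
    exact isOpen_lt (hΦc.add continuous_const).norm continuous_const
  have hTm : Monotone T := by
    intro n m hnm c hc
    obtain ⟨v, hv, hvc⟩ := hc
    exact ⟨v, Submodule.span_mono (Set.image_mono (Set.Ico_subset_Ico_right hnm)) hv, hvc⟩
  have hcov : closure S ⊆ ⋃ n, T n := by
    intro c hc
    have h1 : Φ c ∈ closure (Φ '' S) := image_closure_subset_closure_image hΦc ⟨c, hc, rfl⟩
    obtain ⟨_, ⟨_, ⟨h, hh, rfl⟩, rfl⟩, hd⟩ := Metric.mem_closure_iff.mp h1 (1 / 2) (by norm_num)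
    rw [hΦco, dist_eq_norm] at hd
    obtain ⟨n, v, hv, hvd⟩ := res_approx ξ f hbio hf r h (show (0 : ℝ) < 1 / 2 by norm_num)
    rw [Set.mem_iUnion]
    refine ⟨n, v, hv, ?_⟩
    have h2 : Φ c + v = (Φ c - ps ξ f r h) + (h - (h - ps ξ f r h - v)) := by abel
    have hh' : ‖h‖ ≤ 1 := hh
    calc ‖Φ c + v‖ ≤ ‖Φ c - ps ξ f r h‖ + ‖h - (h - ps ξ f r h - v)‖ := by
          rw [h2]; exact norm_add_le _ _
      _ ≤ ‖Φ c - ps ξ f r h‖ + (‖h‖ + ‖h - ps ξ f r h - v‖) :=
          add_le_add_right (norm_sub_le _ _) _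
      _ < 2 := by linarith
  obtain ⟨n, hn⟩ := hK.elim_directed_cover T hTo hcov hTm.directed_le
  refine ⟨max n (r + 1), lt_of_lt_of_le (Nat.lt_succ_self r) (le_max_right _ _), ?_⟩
  intro h
  have hsub : Submodule.span 𝕜 (f '' Set.Ico r n) ≤
      Submodule.span 𝕜 (f '' Set.Ico r (max n (r + 1))) :=
    Submodule.span_mono (Set.image_mono (Set.Ico_subset_Ico_right (le_max_left _ _)))
  by_cases h0 : h = 0
  · refine ⟨0, Submodule.zero_mem _, ?_⟩
    rw [h0, ps_zero]; simp
  · have hpos : 0 < ‖h‖ := norm_pos_iff.mpr h0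
    set a : 𝕜 := ((‖h‖ : ℝ) : 𝕜) with ha
    have ha0 : a ≠ 0 := by
      rw [ha]; exact_mod_cast hpos.ne'
    have hna : ‖a‖ = ‖h‖ := by
      rw [ha, RCLike.norm_ofReal, abs_of_pos hpos]
    obtain ⟨g, hgh⟩ : ∃ g : V, h = a • g :=
      ⟨a⁻¹ • h, by rw [smul_smul, mul_inv_cancel₀ ha0, one_smul]⟩
    have hgn : ‖g‖ ≤ 1 := by
      have : ‖h‖ = ‖h‖ * ‖g‖ := by
        conv_lhs => rw [hgh, norm_smul, hna]
      have h3 : ‖g‖ = 1 := by
        have := mul_left_cancel₀ hpos.ne' (this.symm.trans (mul_one _).symm)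
        exact this
      exact h3.le
    obtain ⟨v, hv, hvc⟩ := hn (subset_closure ⟨g, hgn, rfl⟩)
    rw [hΦco] at hvc
    refine ⟨a • v, Submodule.smul_mem _ _ (hsub hv), ?_⟩
    have hps : ps ξ f r h = a • ps ξ f r g := by
      rw [← ps_smul, ← hgh]
    rw [hps, ← smul_add, norm_smul, hna]
    nlinarith

end core
section block

variable {𝕜 : Type*} [RCLike 𝕜]
variable {V : Type*} [NormedAddCommGroup V] [NormedSpace 𝕜 V]
variable (ξ : ℕ → StrongDual 𝕜 V) (f : ℕ → V)

/-- linear combination of a finite family -/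
def comb {N : ℕ} {W : Type*} [AddCommGroup W] [Module 𝕜 W] (a : Fin N → 𝕜) (v : Fin N → W) : W :=
  ∑ i, a i • v i

lemma map_comb {N : ℕ} (z : StrongDual 𝕜 V) (a : Fin N → 𝕜) (v : Fin N → V) :
    z (comb a v) = ∑ i, a i * z (v i) := by
  unfold comb
  rw [map_sum]
  apply Finset.sum_congr rfl
  intro i _
  rw [map_smul, smul_eq_mul]

lemma comb_comb {N : ℕ} {W : Type*} [AddCommGroup W] [Module 𝕜 W] (c : Fin N → 𝕜)
    (H : Matrix (Fin N) (Fin N) 𝕜) (v : Fin N → W) :
    comb c (fun l => comb (H l) v) = comb (fun i => ∑ l, c l * H l i) v := by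
  unfold comb
  simp_rw [Finset.smul_sum, smul_smul, Finset.sum_smul]
  exact Finset.sum_comm

lemma ps_block (r N : ℕ) (h : V) :
    ps ξ f (r + N) h = ps ξ f r h + comb (fun i : Fin N => ξ (r + i) h) (fun i : Fin N => f (r + i)) := by
  unfold ps comb
  rw [Finset.sum_range_add, Finset.sum_range (fun x => ξ (r + x) h • f (r + x))]

/-- the block vectors -/
def fb (r : ℕ) {N : ℕ} (H : Matrix (Fin N) (Fin N) 𝕜) (l : Fin N) : V :=
  comb (H l) (fun i : Fin N => f (r + i))

/-- the block functionals evaluated at h -/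
def zb (r : ℕ) {N : ℕ} (K : Matrix (Fin N) (Fin N) 𝕜) (l : Fin N) (h : V) : 𝕜 :=
  ∑ i, K i l * ξ (r + i) h

lemma block_id (r : ℕ) {N : ℕ} {H K : Matrix (Fin N) (Fin N) 𝕜} (hKH : K * H = 1) (h : V) :
    comb (fun i : Fin N => ξ (r + i) h) (fun i : Fin N => f (r + i)) =
      comb (fun l => zb ξ r K l h) (fun l => fb f r H l) := by
  unfold fb
  rw [comb_comb]
  congr 1
  funext i
  unfold zb
  simp_rw [Finset.sum_mul]
  rw [Finset.sum_comm]
  have : ∀ j, ∑ l, K j l * ξ (r + j) h * H l i = ξ (r + j) h * (K * H) j i := by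
    intro j
    rw [Matrix.mul_apply, Finset.mul_sum]
    apply Finset.sum_congr rfl
    intro l _; ring
  simp_rw [this, hKH, Matrix.one_apply]
  simp

lemma approx_vec (r : ℕ) {N : ℕ} {H : Matrix (Fin N) (Fin N) 𝕜} {η : ℝ}
    {C : Finset (Fin N)} {t : Fin N}
    (hA : ∃ c : Fin N → 𝕜, (∀ l, l ∉ C → c l = 0) ∧
          ∀ i, ‖∑ l, c l * H l i - (if i = t then 1 else 0)‖ ≤ η) :
    ∃ u ∈ Submodule.span 𝕜 (fb f r H '' (C : Set (Fin N))),
      ‖f (r + t) - u‖ ≤ η * ∑ i : Fin N, ‖f (r + i)‖ := by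
  classical
  obtain ⟨c, hc0, hc⟩ := hA
  refine ⟨comb c (fun l => fb f r H l), ?_, ?_⟩
  · unfold comb
    apply Submodule.sum_mem
    intro l _
    by_cases hl : l ∈ C
    · exact Submodule.smul_mem _ _ (Submodule.subset_span ⟨l, hl, rfl⟩)
    · rw [hc0 l hl, zero_smul]; exact Submodule.zero_mem _
  · unfold fb
    rw [comb_comb]
    have h1 : comb (fun i => ∑ l, c l * H l i) (fun i : Fin N => f (r + i)) - f (r + t)
        = ∑ i : Fin N, (∑ l, c l * H l i - (if i = t then 1 else 0)) • f (r + i) := by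
      unfold comb
      simp_rw [sub_smul]
      rw [Finset.sum_sub_distrib]
      congr 1
      simp
    rw [norm_sub_rev, h1, Finset.mul_sum]
    refine (norm_sum_le _ _).trans (Finset.sum_le_sum fun i _ => ?_)
    rw [norm_smul]
    exact mul_le_mul_of_nonneg_right (hc i) (norm_nonneg _)

lemma approx_coord (r : ℕ) {N : ℕ} {K : Matrix (Fin N) (Fin N) 𝕜} {η : ℝ} (hη : 0 ≤ η)
    {C : Finset (Fin N)} {s : Fin N}
    (hB : ∃ d : Fin N → 𝕜, (∀ l, l ∈ C → d l = 0) ∧
          ∀ i, ‖∑ l, d l * K i l - (if i = s then 1 else 0)‖ ≤ η)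
    {h : V} (hh : ∀ l, l ∉ C → zb ξ r K l h = 0) :
    ‖ξ (r + s) h‖ ≤ η * (∑ i : Fin N, ‖ξ (r + i)‖) * ‖h‖ := by
  classical
  obtain ⟨d, hd0, hd⟩ := hB
  have h0 : ∑ l, d l * zb ξ r K l h = 0 := by
    apply Finset.sum_eq_zero
    intro l _
    by_cases hl : l ∈ C
    · rw [hd0 l hl, zero_mul]
    · rw [hh l hl, mul_zero]
  have h1 : ∑ l, d l * zb ξ r K l h = ∑ i, (∑ l, d l * K i l) * ξ (r + i) h := by
    unfold zb
    simp_rw [Finset.mul_sum, Finset.sum_mul]
    rw [Finset.sum_comm]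
    apply Finset.sum_congr rfl
    intro i _
    apply Finset.sum_congr rfl
    intro l _
    ring
  have h2 : ξ (r + s) h = - ∑ i : Fin N, (∑ l, d l * K i l - (if i = s then 1 else 0)) * ξ (r + i) h := by
    simp_rw [sub_mul]
    rw [Finset.sum_sub_distrib, ← h1, h0]
    simp
  rw [h2, norm_neg, Finset.mul_sum, Finset.sum_mul]
  refine (norm_sum_le _ _).trans (Finset.sum_le_sum fun i _ => ?_)
  rw [norm_mul, mul_assoc]
  exact mul_le_mul (hd i) ((ξ (r + i)).le_opNorm h) (norm_nonneg _) hη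

variable (hbio : ∀ i j, ξ i (f j) = if i = j then (1 : 𝕜) else 0)
include hbio

lemma coord_zero {r q n : ℕ} (hn : q ≤ n) {v : V}
    (hv : v ∈ Submodule.span 𝕜 (f '' Set.Ico r q)) : ξ n v = 0 := by
  induction hv using Submodule.span_induction with
  | mem y hy =>
    obtain ⟨m, hm, rfl⟩ := hy
    have := hm.2
    rw [hbio, if_neg (by omega)]
  | zero => exact map_zero _
  | add y z _ _ hy hz => rw [map_add, hy, hz, add_zero]
  | smul a y _ hy => rw [map_smul, hy, smul_zero]

lemma coord_ps {n R : ℕ} (hn : n < R) (h : V) : ξ n (ps ξ f R h) = ξ n h := by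
  unfold ps
  rw [map_sum, Finset.sum_eq_single n]
  · rw [map_smul, hbio, if_pos rfl]; simp
  · intro m _ hmn
    rw [map_smul, hbio, if_neg (Ne.symm hmn)]; simp
  · intro h; exact absurd (Finset.mem_range.mpr hn) h

lemma block_vec {r N q : ℕ} (hq : q ≤ r + N) {v : V}
    (hv : v ∈ Submodule.span 𝕜 (f '' Set.Ico r q)) :
    v = comb (fun i : Fin N => ξ (r + i) v) (fun i : Fin N => f (r + i)) := by
  have h1 : ps ξ f (r + N) v = v := by
    apply ps_fix ξ f hbio
    refine Submodule.span_mono (Set.image_mono ?_) hv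
    intro n hn
    exact lt_of_lt_of_le hn.2 hq
  have h2 : ps ξ f r v = 0 := by
    unfold ps
    apply Finset.sum_eq_zero
    intro n hn
    have hn' := Finset.mem_range.mp hn
    have : ξ n v = 0 := by
      clear h1
      induction hv using Submodule.span_induction with
      | mem y hy =>
        obtain ⟨m, hm, rfl⟩ := hy
        have := hm.1
        rw [hbio, if_neg (by omega)]
      | zero => exact map_zero _
      | add y z _ _ hy hz => rw [map_add, hy, hz, add_zero]
      | smul a y _ hy => rw [map_smul, hy, smul_zero]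
    rw [this, zero_smul]
  rw [ps_block, h2, zero_add] at h1
  exact h1.symm

/-- the key one-block approximation -/
lemma block_approx {r N q : ℕ} (hrq : r < q) (hq : q ≤ r + N)
    (hrep : ∀ h : V, ∃ v ∈ Submodule.span 𝕜 (f '' Set.Ico r q), ‖ps ξ f r h + v‖ ≤ 2 * ‖h‖)
    (hnrm : ∀ u ∈ Submodule.span 𝕜 (f '' Set.Iio q), ∀ w : V,
      (∀ n < r + N, ξ n w = 0) → ‖u‖ ≤ 2 * ‖u + w‖)
    {H K : Matrix (Fin N) (Fin N) 𝕜} {η : ℝ} (hη : 0 ≤ η)
    (hA : ∀ (C : Finset (Fin N)) (t : Fin N), (t : ℕ) < C.card →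
        ∃ c : Fin N → 𝕜, (∀ l, l ∉ C → c l = 0) ∧
          ∀ i, ‖∑ l, c l * H l i - (if i = t then 1 else 0)‖ ≤ η)
    (hB : ∀ (C : Finset (Fin N)) (s : Fin N), C.card ≤ (s : ℕ) →
        ∃ d : Fin N → 𝕜, (∀ l, l ∈ C → d l = 0) ∧
          ∀ i, ‖∑ l, d l * K i l - (if i = s then 1 else 0)‖ ≤ η)
    {C : Finset (Fin N)} {h : V} (hh : ∀ l, l ∉ C → zb ξ r K l h = 0)
    {g : V} (hg : g ∈ Submodule.span 𝕜 (f '' Set.Iio r)) :
    ∃ v ∈ Submodule.span 𝕜 (fb f r H '' (C : Set (Fin N))),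
      ‖h - (ps ξ f r h + v)‖ ≤ 3 * ‖h - g‖ +
        ((3 + ∑ n ∈ Finset.range r, ‖ξ n‖ * ‖f n‖) * (∑ i : Fin N, ‖ξ (r + i)‖) *
          (∑ i : Fin N, ‖f (r + i)‖) * η) * (‖h - g‖ + ‖h‖) := by
  classical
  set σ : ℝ := ∑ n ∈ Finset.range r, ‖ξ n‖ * ‖f n‖ with hσ
  set Ξ : ℝ := ∑ i : Fin N, ‖ξ (r + i)‖ with hΞ
  set Φ : ℝ := ∑ i : Fin N, ‖f (r + i)‖ with hΦ
  have hσ0 : 0 ≤ σ := Finset.sum_nonneg fun _ _ => by positivity
  have hΞ0 : 0 ≤ Ξ := Finset.sum_nonneg fun _ _ => norm_nonneg _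
  have hΦ0 : 0 ≤ Φ := Finset.sum_nonneg fun _ _ => norm_nonneg _
  -- approximating vectors
  have hu : ∀ i : Fin N, ∃ u ∈ Submodule.span 𝕜 (fb f r H '' (C : Set (Fin N))),
      ((i : ℕ) < C.card → ‖f (r + i) - u‖ ≤ η * Φ) := by
    intro i
    by_cases hi : (i : ℕ) < C.card
    · obtain ⟨u, hu, hu2⟩ := approx_vec f r (hA C i hi)
      exact ⟨u, hu, fun _ => hu2⟩
    · exact ⟨0, Submodule.zero_mem _, fun h => absurd h hi⟩
  choose u hu1 hu2 using hu
  set w : V := h - g with hw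
  have hpsg : ps ξ f r g = g := ps_fix ξ f hbio hg
  have hpsh : ps ξ f r h = ps ξ f r w + g := by
    rw [hw, ps_sub, hpsg]; abel
  have hw0 := norm_nonneg w
  have hh0 := norm_nonneg h
  by_cases hm : q - r ≤ C.card
  · -- case one
    obtain ⟨v, hv, hvn⟩ := hrep w
    have hvb := block_vec ξ f hbio hq hv
    refine ⟨comb (fun i : Fin N => ξ (r + i) v) u, ?_, ?_⟩
    · unfold comb
      exact Submodule.sum_mem _ fun i _ => Submodule.smul_mem _ _ (hu1 i)
    have hvnorm : ‖v‖ ≤ (2 + σ) * ‖w‖ := by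
      have h1 : v = (ps ξ f r w + v) - ps ξ f r w := by abel
      have h2 := ps_norm ξ f r w
      calc ‖v‖ ≤ ‖ps ξ f r w + v‖ + ‖ps ξ f r w‖ := by
            conv_lhs => rw [h1]
            exact norm_sub_le _ _
        _ ≤ 2 * ‖w‖ + σ * ‖w‖ := add_le_add hvn h2
        _ = _ := by ring
    have hdiff : ‖v - comb (fun i : Fin N => ξ (r + i) v) u‖ ≤ Ξ * ((2 + σ) * ‖w‖) * (η * Φ) := by
      conv_lhs => rw [hvb]
      have h1 : comb (fun i : Fin N => ξ (r + i)
            (comb (fun i : Fin N => ξ (r + i) v) (fun i : Fin N => f (r + i))))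
            u = comb (fun i : Fin N => ξ (r + i) v) u := by rw [← hvb]
      rw [h1]
      unfold comb
      rw [← Finset.sum_sub_distrib, hΞ, Finset.sum_mul, Finset.sum_mul]
      refine (norm_sum_le _ _).trans (Finset.sum_le_sum fun i _ => ?_)
      rw [← smul_sub, norm_smul]
      by_cases hi : (i : ℕ) < C.card
      · apply mul_le_mul _ (hu2 i hi) (norm_nonneg _) (by positivity)
        exact ((ξ (r + i)).le_opNorm v).trans (mul_le_mul_of_nonneg_left hvnorm (norm_nonneg _))
      · have : ξ (r + i) v = 0 := coord_zero ξ f hbio (by omega) hv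
        show ‖ξ (r + i) v‖ * ‖f (r + i) - u i‖ ≤ _
        rw [this, norm_zero, zero_mul]; positivity
    have hsplit : h - (ps ξ f r h + comb (fun i : Fin N => ξ (r + i) v) u)
        = (w - (ps ξ f r w + v)) + (v - comb (fun i : Fin N => ξ (r + i) v) u) := by
      rw [hpsh, hw]; abel
    rw [hsplit]
    calc _ ≤ ‖w - (ps ξ f r w + v)‖ + ‖v - comb (fun i : Fin N => ξ (r + i) v) u‖ := norm_add_le _ _
      _ ≤ (‖w‖ + 2 * ‖w‖) + Ξ * ((2 + σ) * ‖w‖) * (η * Φ) :=
        add_le_add ((norm_sub_le _ _).trans (add_le_add_right hvn _)) hdiff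
      _ ≤ 3 * ‖w‖ + (3 + σ) * Ξ * Φ * η * (‖w‖ + ‖h‖) := by
        have h1 : 0 ≤ Ξ * Φ * η * ‖w‖ := by positivity
        have h2 : 0 ≤ (3 + σ) * Ξ * Φ * η * ‖h‖ := by positivity
        nlinarith
  · -- case two
    push Not at hm
    set a : Fin N → 𝕜 := fun i => ξ (r + i) h with ha
    set a1 : Fin N → 𝕜 := fun i => if (i : ℕ) < C.card then a i else 0 with ha1
    set a2 : Fin N → 𝕜 := fun i => if (i : ℕ) < C.card then 0 else a i with ha2
    have haa : ∀ (W : Type _) [AddCommGroup W] [Module 𝕜 W] (v : Fin N → W),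
        comb a v = comb a1 v + comb a2 v := by
      intro W _ _ v
      unfold comb
      rw [← Finset.sum_add_distrib]
      apply Finset.sum_congr rfl
      intro i _
      simp only [ha1, ha2]
      by_cases hi : (i : ℕ) < C.card <;> simp [hi]
    set fr : Fin N → V := fun i => f (r + i) with hfr
    refine ⟨comb a1 u, ?_, ?_⟩
    · unfold comb
      exact Submodule.sum_mem _ fun i _ => Submodule.smul_mem _ _ (hu1 i)
    set τ : V := comb a2 fr with hτ
    have hτn : ‖τ‖ ≤ η * Ξ * ‖h‖ * Φ := by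
      rw [hτ]
      unfold comb
      rw [hΦ, Finset.mul_sum]
      refine (norm_sum_le _ _).trans (Finset.sum_le_sum fun i _ => ?_)
      rw [norm_smul]
      apply mul_le_mul_of_nonneg_right _ (norm_nonneg _)
      simp only [ha2]
      by_cases hi : (i : ℕ) < C.card
      · rw [if_pos hi, norm_zero]; positivity
      · rw [if_neg hi]
        exact approx_coord ξ r hη (hB C i (not_lt.mp hi)) hh
    set w' : V := h - ps ξ f (r + N) h with hw'
    have hw'0 : ∀ n < r + N, ξ n w' = 0 := by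
      intro n hn
      rw [hw', map_sub, coord_ps ξ f hbio hn, sub_self]
    set z : V := ps ξ f r h + comb a1 fr - g with hz
    have hz_mem : z ∈ Submodule.span 𝕜 (f '' Set.Iio q) := by
      apply Submodule.sub_mem
      · apply Submodule.add_mem
        · exact Submodule.span_mono (Set.image_mono (Set.Iio_subset_Iio hrq.le)) (ps_mem ξ f r h)
        · unfold comb
          apply Submodule.sum_mem
          intro i _
          simp only [ha1]
          by_cases hi : (i : ℕ) < C.card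
          · apply Submodule.smul_mem
            apply Submodule.subset_span
            refine ⟨r + i, ?_, rfl⟩
            show r + (i : ℕ) < q
            omega
          · rw [if_neg hi, zero_smul]; exact Submodule.zero_mem _
      · exact Submodule.span_mono (Set.image_mono (Set.Iio_subset_Iio hrq.le)) hg
    have hdec : w = z + w' + τ := by
      have h1 : ps ξ f (r + N) h = ps ξ f r h + (comb a1 fr + comb a2 fr) := by
        rw [ps_block, ← haa]
      rw [hw, hz, hw', h1, hτ]; abel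
    have hzn : ‖z‖ ≤ 2 * (‖w‖ + ‖τ‖) := by
      have h1 := hnrm z hz_mem w' hw'0
      have h2 : z + w' = w - τ := by rw [hdec]; abel
      rw [h2] at h1
      linarith [norm_sub_le w τ]
    have hdiff : ‖comb a1 fr - comb a1 u‖ ≤ Ξ * ‖h‖ * (η * Φ) := by
      unfold comb
      rw [← Finset.sum_sub_distrib, hΞ, Finset.sum_mul, Finset.sum_mul]
      refine (norm_sum_le _ _).trans (Finset.sum_le_sum fun i _ => ?_)
      rw [← smul_sub, norm_smul]
      simp only [ha1]
      by_cases hi : (i : ℕ) < C.card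
      · rw [if_pos hi]
        exact mul_le_mul ((ξ (r + i)).le_opNorm h) (hu2 i hi) (norm_nonneg _) (by positivity)
      · rw [if_neg hi, norm_zero, zero_mul]; positivity
    have hsplit : h - (ps ξ f r h + comb a1 u) = w - z + (comb a1 fr - comb a1 u) := by
      rw [hw, hz]; abel
    rw [hsplit]
    calc _ ≤ ‖w - z‖ + ‖comb a1 fr - comb a1 u‖ := norm_add_le _ _
      _ ≤ (‖w‖ + 2 * (‖w‖ + ‖τ‖)) + Ξ * ‖h‖ * (η * Φ) :=
        add_le_add ((norm_sub_le _ _).trans (add_le_add_right hzn _)) hdiff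
      _ ≤ 3 * ‖w‖ + (3 + σ) * Ξ * Φ * η * (‖w‖ + ‖h‖) := by
        have h1 : 0 ≤ (3 + σ) * Ξ * Φ * η * ‖w‖ := by positivity
        have h2 : 0 ≤ σ * (Ξ * Φ * η * ‖h‖) := by positivity
        nlinarith

end block

/-- Dependent choice for sequences, one value at a time. -/
lemma exists_seq_of_step {α : Type*} [Inhabited α] (P : ℕ → (ℕ → α) → Prop)
    (hloc : ∀ n p q, (∀ i < n, p i = q i) → P n p → P n q)
    (h0 : P 0 default)
    (hstep : ∀ n p, P n p → ∃ a, P (n + 1) (Function.update p n a)) :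
    ∃ p, ∀ n, P n p := by
  choose a ha using hstep
  let S : (n : ℕ) → {p : ℕ → α // P n p} := fun n =>
    Nat.rec ⟨default, h0⟩ (fun n s => ⟨Function.update s.1 n (a n s.1 s.2), ha n s.1 s.2⟩) n
  have hS : ∀ n, (S (n + 1)).1 = Function.update (S n).1 n (a n (S n).1 (S n).2) := fun n => rfl
  refine ⟨fun i => (S (i + 1)).1 i, fun n => ?_⟩
  apply hloc n (S n).1 _ _ (S n).2
  induction n with
  | zero => intro i hi; exact absurd hi (Nat.not_lt_zero i)
  | succ n ih =>
    intro i hi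
    rcases Nat.lt_succ_iff_lt_or_eq.mp hi with h | h
    · rw [hS, Function.update_of_ne h.ne]
      exact ih i h
    · subst h; rfl

section mark

variable {𝕜 : Type*} [RCLike 𝕜] {E : Type*} [NormedAddCommGroup E] [NormedSpace 𝕜 E]

/-- biorthogonality up to index n -/
def Bio (n : ℕ) (p : ℕ → E × StrongDual 𝕜 E) : Prop :=
  ∀ i < n, ∀ j < n, (p i).2 (p j).1 = if i = j then (1 : 𝕜) else 0

/-- the goal reached at stage n -/
def Goal (n : ℕ) (p : ℕ → E × StrongDual 𝕜 E) : E ⊕ StrongDual 𝕜 E → Prop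
  | Sum.inl u => u ∈ Submodule.span 𝕜 ((fun i => (p i).1) '' Set.Iio n)
  | Sum.inr g => g ∈ Submodule.span 𝕜 ((fun i => (p i).2) '' Set.Iio n)

lemma Bio.congr {n : ℕ} {p q : ℕ → E × StrongDual 𝕜 E} (h : ∀ i < n, p i = q i)
    (hp : Bio n p) : Bio n q := by
  intro i hi j hj
  rw [← h i hi, ← h j hj]
  exact hp i hi j hj

lemma Goal.congr {n : ℕ} {p q : ℕ → E × StrongDual 𝕜 E} (h : ∀ i < n, p i = q i)
    {t : E ⊕ StrongDual 𝕜 E} (hp : Goal n p t) : Goal n q t := by
  cases t with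
  | inl u =>
    have : (fun i => (q i).1) '' Set.Iio n = (fun i => (p i).1) '' Set.Iio n := by
      apply Set.image_congr
      intro i hi
      rw [h i hi]
    unfold Goal at *
    rw [this]; exact hp
  | inr g =>
    have : (fun i => (q i).2) '' Set.Iio n = (fun i => (p i).2) '' Set.Iio n := by
      apply Set.image_congr
      intro i hi
      rw [h i hi]
    unfold Goal at *
    rw [this]; exact hp

lemma Goal.mono {n m : ℕ} (hnm : n ≤ m) {p : ℕ → E × StrongDual 𝕜 E}
    {t : E ⊕ StrongDual 𝕜 E} (hp : Goal n p t) : Goal m p t := by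
  cases t with
  | inl u => exact Submodule.span_mono (Set.image_mono (Set.Iio_subset_Iio hnm)) hp
  | inr g => exact Submodule.span_mono (Set.image_mono (Set.Iio_subset_Iio hnm)) hp

/-- adding an element with prescribed new vector direction -/
lemma stepA {n : ℕ} {p : ℕ → E × StrongDual 𝕜 E} (hp : Bio n p) (z : E)
    (hz : z ∉ Submodule.span 𝕜 ((fun i => (p i).1) '' Set.Iio n)) :
    ∃ a : E × StrongDual 𝕜 E, Bio (n + 1) (Function.update p n a) ∧
      z ∈ Submodule.span 𝕜 ((fun i => (Function.update p n a i).1) '' Set.Iio (n + 1)) := by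
  classical
  set x : E := z - ∑ i ∈ Finset.range n, (p i).2 z • (p i).1 with hx
  have hsum : ∑ i ∈ Finset.range n, (p i).2 z • (p i).1 ∈
      Submodule.span 𝕜 ((fun i => (p i).1) '' Set.Iio n) := by
    apply Submodule.sum_mem
    intro i hi
    exact Submodule.smul_mem _ _ (Submodule.subset_span ⟨i, Finset.mem_range.mp hi, rfl⟩)
  have hx0 : x ≠ 0 := by
    intro h
    apply hz
    have : z = ∑ i ∈ Finset.range n, (p i).2 z • (p i).1 := sub_eq_zero.mp h
    rw [this]; exact hsum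
  have hfx : ∀ i < n, (p i).2 x = 0 := by
    intro i hi
    rw [hx, map_sub, map_sum, Finset.sum_eq_single i]
    · rw [map_smul, hp i hi i hi, if_pos rfl]; simp
    · intro j hj hji
      rw [map_smul, hp i hi j (Finset.mem_range.mp hj), if_neg (Ne.symm hji)]; simp
    · intro h; exact absurd (Finset.mem_range.mpr hi) h
  obtain ⟨g, hg⟩ := SeparatingDual.exists_eq_one (R := 𝕜) hx0
  set f : StrongDual 𝕜 E := g - ∑ i ∈ Finset.range n, g (p i).1 • (p i).2 with hf
  have hfx1 : f x = 1 := by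
    rw [hf, sub_apply, sum_apply, Finset.sum_eq_zero, hg,
      sub_zero]
    intro i hi
    rw [smul_apply, hfx i (Finset.mem_range.mp hi), smul_zero]
  have hfj : ∀ j < n, f (p j).1 = 0 := by
    intro j hj
    rw [hf, sub_apply, sum_apply, Finset.sum_eq_single j]
    · rw [smul_apply, hp j hj j hj, if_pos rfl]; simp
    · intro i hi hij
      rw [smul_apply, hp i (Finset.mem_range.mp hi) j hj, if_neg hij]; simp
    · intro h; exact absurd (Finset.mem_range.mpr hj) h
  refine ⟨(x, f), ?_, ?_⟩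
  · intro i hi j hj
    rcases Nat.lt_succ_iff_lt_or_eq.mp hi with hi' | rfl
    · rcases Nat.lt_succ_iff_lt_or_eq.mp hj with hj' | rfl
      · rw [Function.update_of_ne hi'.ne, Function.update_of_ne hj'.ne]
        exact hp i hi' j hj'
      · rw [Function.update_of_ne hi'.ne, Function.update_self, if_neg hi'.ne]
        exact hfx i hi'
    · rcases Nat.lt_succ_iff_lt_or_eq.mp hj with hj' | rfl
      · rw [Function.update_of_ne hj'.ne, Function.update_self, if_neg hj'.ne']
        exact hfj j hj'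
      · rw [Function.update_self, if_pos rfl]
        exact hfx1
  · have h1 : z = x + ∑ i ∈ Finset.range n, (p i).2 z • (p i).1 := by rw [hx]; abel
    rw [h1]
    apply Submodule.add_mem
    · apply Submodule.subset_span
      exact ⟨n, Nat.lt_succ_self n, by simp⟩
    · apply Submodule.sum_mem
      intro i hi
      have hin : i < n := Finset.mem_range.mp hi
      apply Submodule.smul_mem
      apply Submodule.subset_span
      exact ⟨i, Nat.lt_succ_of_lt hin, by simp [Function.update_of_ne hin.ne]⟩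

/-- adding an element with prescribed new functional direction -/
lemma stepB {n : ℕ} {p : ℕ → E × StrongDual 𝕜 E} (hp : Bio n p) (g : StrongDual 𝕜 E)
    (hg : g ∉ Submodule.span 𝕜 ((fun i => (p i).2) '' Set.Iio n)) :
    ∃ a : E × StrongDual 𝕜 E, Bio (n + 1) (Function.update p n a) ∧
      g ∈ Submodule.span 𝕜 ((fun i => (Function.update p n a i).2) '' Set.Iio (n + 1)) := by
  classical
  set f : StrongDual 𝕜 E := g - ∑ i ∈ Finset.range n, g (p i).1 • (p i).2 with hf
  have hsum : ∑ i ∈ Finset.range n, g (p i).1 • (p i).2 ∈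
      Submodule.span 𝕜 ((fun i => (p i).2) '' Set.Iio n) := by
    apply Submodule.sum_mem
    intro i hi
    exact Submodule.smul_mem _ _ (Submodule.subset_span ⟨i, Finset.mem_range.mp hi, rfl⟩)
  have hf0 : f ≠ 0 := by
    intro h
    apply hg
    have : g = ∑ i ∈ Finset.range n, g (p i).1 • (p i).2 := sub_eq_zero.mp h
    rw [this]; exact hsum
  have hfj : ∀ j < n, f (p j).1 = 0 := by
    intro j hj
    rw [hf, sub_apply, sum_apply, Finset.sum_eq_single j]
    · rw [smul_apply, hp j hj j hj, if_pos rfl]; simp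
    · intro i hi hij
      rw [smul_apply, hp i (Finset.mem_range.mp hi) j hj, if_neg hij]; simp
    · intro h; exact absurd (Finset.mem_range.mpr hj) h
  obtain ⟨z0, hz0⟩ : ∃ z0, f z0 ≠ 0 := by
    by_contra hcon
    push Not at hcon
    exact hf0 (ContinuousLinearMap.ext hcon)
  obtain ⟨z, hfz⟩ : ∃ z : E, f z = 1 :=
    ⟨(f z0)⁻¹ • z0, by rw [map_smul, smul_eq_mul, inv_mul_cancel₀ hz0]⟩
  set x : E := z - ∑ i ∈ Finset.range n, (p i).2 z • (p i).1 with hx
  have hfx : ∀ i < n, (p i).2 x = 0 := by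
    intro i hi
    rw [hx, map_sub, map_sum, Finset.sum_eq_single i]
    · rw [map_smul, hp i hi i hi, if_pos rfl]; simp
    · intro j hj hji
      rw [map_smul, hp i hi j (Finset.mem_range.mp hj), if_neg (Ne.symm hji)]; simp
    · intro h; exact absurd (Finset.mem_range.mpr hi) h
  have hfx1 : f x = 1 := by
    rw [hx, map_sub, map_sum, Finset.sum_eq_zero, hfz, sub_zero]
    intro i hi
    rw [map_smul, hfj i (Finset.mem_range.mp hi), smul_zero]
  refine ⟨(x, f), ?_, ?_⟩
  · intro i hi j hj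
    rcases Nat.lt_succ_iff_lt_or_eq.mp hi with hi' | rfl
    · rcases Nat.lt_succ_iff_lt_or_eq.mp hj with hj' | rfl
      · rw [Function.update_of_ne hi'.ne, Function.update_of_ne hj'.ne]
        exact hp i hi' j hj'
      · rw [Function.update_of_ne hi'.ne, Function.update_self, if_neg hi'.ne]
        exact hfx i hi'
    · rcases Nat.lt_succ_iff_lt_or_eq.mp hj with hj' | rfl
      · rw [Function.update_of_ne hj'.ne, Function.update_self, if_neg hj'.ne']
        exact hfj j hj'
      · rw [Function.update_self, if_pos rfl]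
        exact hfx1
  · have h1 : g = f + ∑ i ∈ Finset.range n, g (p i).1 • (p i).2 := by rw [hf]; abel
    rw [h1]
    apply Submodule.add_mem
    · apply Submodule.subset_span
      exact ⟨n, Nat.lt_succ_self n, by simp⟩
    · apply Submodule.sum_mem
      intro i hi
      have hin : i < n := Finset.mem_range.mp hi
      apply Submodule.smul_mem
      apply Submodule.subset_span
      exact ⟨i, Nat.lt_succ_of_lt hin, by simp [Function.update_of_ne hin.ne]⟩

lemma step_any (hinf : ¬ FiniteDimensional 𝕜 E) {n : ℕ} {p : ℕ → E × StrongDual 𝕜 E}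
    (hp : Bio n p) (t : E ⊕ StrongDual 𝕜 E) :
    ∃ a : E × StrongDual 𝕜 E, Bio (n + 1) (Function.update p n a) ∧
      Goal (n + 1) (Function.update p n a) t := by
  -- some vector outside the finite-dimensional span
  have hout : ∃ z, z ∉ Submodule.span 𝕜 ((fun i => (p i).1) '' Set.Iio n) := by
    by_contra hcon
    push Not at hcon
    apply hinf
    have htop : Submodule.span 𝕜 ((fun i => (p i).1) '' Set.Iio n) = ⊤ := by
      rw [eq_top_iff]; intro z _; exact hcon z
    have hfin : FiniteDimensional 𝕜 (Submodule.span 𝕜 ((fun i => (p i).1) '' Set.Iio n)) :=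
      FiniteDimensional.span_of_finite 𝕜 ((Set.finite_Iio n).image _)
    rw [htop] at hfin
    exact Module.finite_def.mpr (Module.Finite.iff_fg.mp hfin)
  have hcong : ∀ a, ∀ i < n, p i = Function.update p n a i := by
    intro a i hi
    rw [Function.update_of_ne hi.ne]
  cases t with
  | inl u =>
    by_cases hu : u ∈ Submodule.span 𝕜 ((fun i => (p i).1) '' Set.Iio n)
    · obtain ⟨z, hz⟩ := hout
      obtain ⟨a, ha, _⟩ := stepA hp z hz
      refine ⟨a, ha, ?_⟩
      exact Goal.mono (Nat.le_succ n) (Goal.congr (t := Sum.inl u) (hcong a) hu)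
    · obtain ⟨a, ha, hu'⟩ := stepA hp u hu
      exact ⟨a, ha, hu'⟩
  | inr g =>
    by_cases hg : g ∈ Submodule.span 𝕜 ((fun i => (p i).2) '' Set.Iio n)
    · obtain ⟨z, hz⟩ := hout
      obtain ⟨a, ha, _⟩ := stepA hp z hz
      refine ⟨a, ha, ?_⟩
      exact Goal.mono (Nat.le_succ n) (Goal.congr (t := Sum.inr g) (hcong a) hg)
    · obtain ⟨a, ha, hg'⟩ := stepB hp g hg
      exact ⟨a, ha, hg'⟩

/-- Markushevich: a biorthogonal system whose spans contain prescribed sequences. -/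
lemma exists_system (hinf : ¬ FiniteDimensional 𝕜 E) (t : ℕ → E ⊕ StrongDual 𝕜 E) :
    ∃ (x : ℕ → E) (f : ℕ → StrongDual 𝕜 E),
      (∀ i j, f i (x j) = if i = j then (1 : 𝕜) else 0) ∧
      ∀ k, (∀ u, t k = Sum.inl u → u ∈ Submodule.span 𝕜 (Set.range x)) ∧
        (∀ g, t k = Sum.inr g → g ∈ Submodule.span 𝕜 (Set.range f)) := by
  have : Inhabited (E × StrongDual 𝕜 E) := ⟨(0, 0)⟩
  obtain ⟨p, hp⟩ := exists_seq_of_step
    (P := fun n (p : ℕ → E × StrongDual 𝕜 E) => Bio n p ∧ ∀ k < n, Goal n p (t k))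
    (by
      rintro n p q h ⟨h1, h2⟩
      exact ⟨h1.congr h, fun k hk => (h2 k hk).congr h⟩)
    ⟨fun i hi => absurd hi (Nat.not_lt_zero i), fun k hk => absurd hk (Nat.not_lt_zero k)⟩
    (by
      rintro n p ⟨h1, h2⟩
      obtain ⟨a, ha, hga⟩ := step_any hinf h1 (t n)
      refine ⟨a, ha, fun k hk => ?_⟩
      rcases Nat.lt_succ_iff_lt_or_eq.mp hk with hk' | rfl
      · refine ((h2 k hk').congr ?_).mono (Nat.le_succ n)
        intro i hi
        rw [Function.update_of_ne hi.ne]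
      · exact hga)
  refine ⟨fun i => (p i).1, fun i => (p i).2, ?_, ?_⟩
  · intro i j
    exact (hp (max i j + 1)).1 i (by omega) j (by omega)
  · intro k
    have hk := (hp (k + 1)).2 k (Nat.lt_succ_self k)
    constructor
    · intro u hu
      rw [hu] at hk
      exact Submodule.span_mono (Set.image_subset_range _ _) hk
    · intro g hg
      rw [hg] at hk
      exact Submodule.span_mono (Set.image_subset_range _ _) hk

/-- a Banach space with separable dual is separable -/
lemma separable_of_dual [TopologicalSpace.SeparableSpace (StrongDual 𝕜 E)] :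
    TopologicalSpace.SeparableSpace E := by
  have hz : ∀ n : ℕ, ∃ z : E, ‖z‖ ≤ 1 ∧
      ‖TopologicalSpace.denseSeq (StrongDual 𝕜 E) n‖ / 2 ≤
        ‖TopologicalSpace.denseSeq (StrongDual 𝕜 E) n z‖ := by
    intro n
    set g := TopologicalSpace.denseSeq (StrongDual 𝕜 E) n with hg
    by_cases h0 : ‖g‖ = 0
    · exact ⟨0, by simp, by simp [h0]⟩
    · have hpos : 0 < ‖g‖ := lt_of_le_of_ne (norm_nonneg _) (Ne.symm h0)
      by_contra hcon
      push Not at hcon
      have : ‖g‖ ≤ ‖g‖ / 2 := by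
        apply ContinuousLinearMap.opNorm_le_of_unit_norm (by positivity)
        intro z hz
        exact (hcon z hz.le).le
      linarith
  choose z hz1 hz2 using hz
  have htop : (Submodule.span 𝕜 (Set.range z)).topologicalClosure = ⊤ := by
    by_contra hne
    set D := (Submodule.span 𝕜 (Set.range z)).topologicalClosure with hD
    have hDc : IsClosed (D : Set E) := Submodule.isClosed_topologicalClosure _
    obtain ⟨w, hw⟩ : ∃ w, w ∉ D := by
      by_contra hcon
      push Not at hcon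
      exact hne (eq_top_iff.mpr fun w _ => hcon w)
    have hfw : ∃ f : StrongDual 𝕜 E, f ≠ 0 ∧ ∀ v ∈ D, f v = 0 := by
      have : IsClosed (D : Set E) := hDc
      have hw0 : D.mkQL w ≠ 0 := by
        intro h
        apply hw
        exact (Submodule.Quotient.mk_eq_zero D).mp h
      obtain ⟨g, hg⟩ := SeparatingDual.exists_eq_one (R := 𝕜) hw0
      refine ⟨g.comp D.mkQL, ?_, ?_⟩
      · intro h
        have := congrArg (fun φ => φ w) h
        simp only [ContinuousLinearMap.comp_apply, hg] at this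
        exact one_ne_zero this
      · intro v hv
        have : D.mkQL v = 0 := (Submodule.Quotient.mk_eq_zero D).mpr hv
        rw [ContinuousLinearMap.comp_apply, this, map_zero]
    obtain ⟨f, hf0, hfD⟩ := hfw
    have hfpos : 0 < ‖f‖ := norm_pos_iff.mpr hf0
    obtain ⟨n, hn⟩ := (TopologicalSpace.denseRange_denseSeq (StrongDual 𝕜 E)).exists_dist_lt f
      (show (0 : ℝ) < ‖f‖ / 4 by positivity)
    set g := TopologicalSpace.denseSeq (StrongDual 𝕜 E) n with hg
    have h1 : ‖g (z n)‖ ≤ ‖f‖ / 4 := by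
      have : g (z n) = (g - f) (z n) := by
        rw [sub_apply, hfD (z n), sub_zero]
        exact Submodule.le_topologicalClosure _ (Submodule.subset_span ⟨n, rfl⟩)
      rw [this]
      calc ‖(g - f) (z n)‖ ≤ ‖g - f‖ * ‖z n‖ := (g - f).le_opNorm _
        _ ≤ ‖g - f‖ * 1 := mul_le_mul_of_nonneg_left (hz1 n) (norm_nonneg _)
        _ ≤ ‖f‖ / 4 := by
          rw [mul_one, ← dist_eq_norm, dist_comm]; exact hn.le
    have h2 := hz2 n
    have h3 : ‖f‖ ≤ ‖g‖ + ‖f‖ / 4 := by
      have := norm_sub_norm_le f g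
      rw [← dist_eq_norm] at this
      linarith
    rw [← hg] at h2
    linarith
  have hsep : TopologicalSpace.IsSeparable (Set.range z) := Set.countable_range z |>.isSeparable
  have h2 := (hsep.span (R := 𝕜)).closure
  rw [← Submodule.topologicalClosure_coe, htop] at h2
  exact TopologicalSpace.isSeparable_univ_iff.mp h2

end mark

section assembly

variable {𝕜 : Type*} [RCLike 𝕜]

/-- Block transformation making the system strong on the side of V. -/
theorem strong_transform {V : Type*} [NormedAddCommGroup V] [NormedSpace 𝕜 V]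
    (ξ : ℕ → StrongDual 𝕜 V) (f : ℕ → V)
    (hbio : ∀ i j, ξ i (f j) = if i = j then (1 : 𝕜) else 0)
    (hf : Dense ((Submodule.span 𝕜 (Set.range f) : Submodule 𝕜 V) : Set V))
    (hnorm : ∀ u : V, ‖u‖ = 1 → ∃ R, ∃ z : StrongDual 𝕜 V, ‖z‖ ≤ 1 ∧
      (∀ w, (∀ n < R, ξ n w = 0) → z w = 0) ∧ 1 / 2 < ‖z u‖) :
    ∃ (rr N : ℕ → ℕ) (H K : ∀ k, Matrix (Fin (N k)) (Fin (N k)) 𝕜),
      rr 0 = 0 ∧ (∀ k, rr (k + 1) = rr k + N k) ∧ (∀ k, 0 < N k) ∧
      (∀ k, H k * K k = 1) ∧ (∀ k, K k * H k = 1) ∧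
      ∀ (M : Set (Σ k, Fin (N k))) (h : V),
        (∀ p, p ∉ M → zb ξ (rr p.1) (K p.1) p.2 h = 0) →
        h ∈ (Submodule.span 𝕜 ((fun p : Σ k, Fin (N k) => fb f (rr p.1) (H p.1) p.2) '' M)).topologicalClosure := by
  classical
  choose Q hQ1 hQ2 using rep_gap ξ f hbio hf
  choose R hR1 hR2 using norm_gap ξ f hnorm
  set rr : ℕ → ℕ := fun k => (fun r => R (Q r))^[k] 0 with hrr
  have hrr0 : rr 0 = 0 := rfl
  have hrrs : ∀ k, rr (k + 1) = R (Q (rr k)) := fun k => by
    simp only [hrr]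
    rw [Function.iterate_succ_apply']
  set N : ℕ → ℕ := fun k => R (Q (rr k)) - rr k with hN
  have hlt : ∀ k, rr k < R (Q (rr k)) := fun k => (hQ1 _).trans (hR1 _)
  have hrN : ∀ k, rr k + N k = R (Q (rr k)) := fun k => by
    have := hlt k
    simp only [hN]; omega
  set σ : ℕ → ℝ := fun k => ∑ n ∈ Finset.range (rr k), ‖ξ n‖ * ‖f n‖ with hσ
  set Ξ : ℕ → ℝ := fun k => ∑ i : Fin (N k), ‖ξ (rr k + i)‖ with hΞ
  set Φ : ℕ → ℝ := fun k => ∑ i : Fin (N k), ‖f (rr k + i)‖ with hΦ
  have hσ0 : ∀ k, 0 ≤ σ k := fun k => Finset.sum_nonneg fun _ _ => by positivity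
  have hΞ0 : ∀ k, 0 ≤ Ξ k := fun k => Finset.sum_nonneg fun _ _ => norm_nonneg _
  have hΦ0 : ∀ k, 0 ≤ Φ k := fun k => Finset.sum_nonneg fun _ _ => norm_nonneg _
  set c : ℕ → ℝ := fun k => (3 + σ k) * Ξ k * Φ k with hc
  have hc0 : ∀ k, 0 ≤ c k := fun k => by
    have h1 := hσ0 k; have h2 := hΞ0 k; have h3 := hΦ0 k
    simp only [hc]; positivity
  set η : ℕ → ℝ := fun k => 1 / (((k : ℝ) + 1) * (1 + c k)) with hη
  have hη0 : ∀ k, 0 < η k := fun k => by
    have := hc0 k
    simp only [hη]; positivity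
  have hcη : ∀ k, c k * η k ≤ 1 / ((k : ℝ) + 1) := fun k => by
    have h1 := hc0 k
    simp only [hη]
    rw [mul_one_div, div_le_div_iff₀ (by positivity) (by positivity)]
    nlinarith [show (0 : ℝ) ≤ k from Nat.cast_nonneg k]
  choose H K hHK hKH hA hB using fun k => matrix_lemma (𝕜 := 𝕜) (N k) (η k) (hη0 k)
  refine ⟨rr, N, H, K, hrr0, fun k => by rw [hrrs, hrN], fun k => ?_, hHK, hKH, ?_⟩
  · have := hlt k
    simp only [hN]; omega
  intro M h hM
  set W := Submodule.span 𝕜 ((fun p : Σ k, Fin (N k) => fb f (rr p.1) (H p.1) p.2) '' M) with hW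
  -- truncated sums at block ends lie in W
  have hps : ∀ k, ps ξ f (rr k) h ∈ W := by
    intro k
    induction k with
    | zero =>
      have : ps ξ f (rr 0) h = 0 := by rw [hrr0]; unfold ps; simp
      rw [this]; exact Submodule.zero_mem _
    | succ k ih =>
      rw [hrrs, ← hrN, ps_block, block_id ξ f (rr k) (hKH k)]
      apply Submodule.add_mem _ ih
      unfold comb
      apply Submodule.sum_mem
      intro l _
      by_cases hl : (⟨k, l⟩ : Σ k, Fin (N k)) ∈ M
      · exact Submodule.smul_mem _ _ (Submodule.subset_span ⟨⟨k, l⟩, hl, rfl⟩)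
      · have h0 : zb ξ (rr k) (K k) l h = 0 := hM ⟨k, l⟩ hl
        show zb ξ (rr k) (K k) l h • fb f (rr k) (H k) l ∈ W
        rw [h0, zero_smul]; exact Submodule.zero_mem _
  have hkle : ∀ k, k ≤ rr k := by
    intro k
    induction k with
    | zero => exact Nat.zero_le _
    | succ k ih =>
      rw [hrrs]
      have := hlt k
      omega
  rw [← SetLike.mem_coe, Submodule.topologicalClosure_coe, Metric.mem_closure_iff]
  intro ε hε
  -- approximate h by g
  obtain ⟨g, hg, hgd⟩ := Metric.mem_closure_iff.mp (hf h) (ε / 6) (by positivity)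
  have hg' : g ∈ Submodule.span 𝕜 (f '' Set.univ) := by rw [Set.image_univ]; exact hg
  obtain ⟨n0, hn0⟩ := span_fin f _ hg'
  rw [Set.univ_inter] at hn0
  obtain ⟨n1, hn1⟩ := exists_nat_gt ((2 * (‖h - g‖ + ‖h‖)) / ε)
  set k := max n0 n1 with hk
  have hgk : g ∈ Submodule.span 𝕜 (f '' Set.Iio (rr k)) := by
    refine Submodule.span_mono (Set.image_mono (Set.Iio_subset_Iio ?_)) hn0
    exact (le_max_left n0 n1).trans (hkle k)
  set C : Finset (Fin (N k)) := Finset.univ.filter (fun l => (⟨k, l⟩ : Σ k, Fin (N k)) ∈ M) with hC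
  have hh : ∀ l, l ∉ C → zb ξ (rr k) (K k) l h = 0 := by
    intro l hl
    apply hM ⟨k, l⟩
    simpa [hC] using hl
  have hQN : Q (rr k) ≤ rr k + N k := by
    rw [hrN]; exact (hR1 _).le
  obtain ⟨v, hv, hvn⟩ := block_approx ξ f hbio (hQ1 (rr k)) hQN (hQ2 (rr k))
    (by rw [hrN]; exact hR2 (Q (rr k))) (hη0 k).le (hA k) (hB k) hh hgk
  have hvW : v ∈ W := by
    refine Submodule.span_mono ?_ hv
    rintro _ ⟨l, hl, rfl⟩
    have hl' : (⟨k, l⟩ : Σ k, Fin (N k)) ∈ M := by simpa [hC] using hl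
    exact ⟨⟨k, l⟩, hl', rfl⟩
  refine ⟨ps ξ f (rr k) h + v, Submodule.add_mem _ (hps k) hvW, ?_⟩
  rw [dist_eq_norm]
  have h1 : ‖h - g‖ < ε / 6 := by rwa [← dist_eq_norm]
  have h2 : c k * η k * (‖h - g‖ + ‖h‖) ≤ ε / 2 := by
    have hpos : 0 ≤ ‖h - g‖ + ‖h‖ := by positivity
    calc c k * η k * (‖h - g‖ + ‖h‖) ≤ 1 / ((k : ℝ) + 1) * (‖h - g‖ + ‖h‖) :=
          mul_le_mul_of_nonneg_right (hcη k) hpos
      _ ≤ ε / 2 := by
        have h3 : (n1 : ℝ) ≤ k := by exact_mod_cast le_max_right n0 n1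
        rw [div_lt_iff₀ hε] at hn1
        rw [one_div, inv_mul_le_iff₀ (by positivity)]
        nlinarith
  calc _ ≤ _ := hvn
    _ < ε := by
      have : (3 + ∑ n ∈ Finset.range (rr k), ‖ξ n‖ * ‖f n‖) * (∑ i : Fin (N k), ‖ξ (rr k + i)‖) *
          (∑ i : Fin (N k), ‖f (rr k + i)‖) * η k = c k * η k := rfl
      rw [this]
      linarith

end assembly


section final

variable {𝕜 : Type*} [RCLike 𝕜]

lemma comb_inv_left {N : ℕ} {W : Type*} [AddCommGroup W] [Module 𝕜 W]
    {H K : Matrix (Fin N) (Fin N) 𝕜} (hKH : K * H = 1) (v : Fin N → W) (i : Fin N) :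
    comb (fun l => K i l) (fun l => comb (H l) v) = v i := by
  rw [comb_comb]
  have : (fun j => ∑ l, K i l * H l j) = fun j => (1 : Matrix (Fin N) (Fin N) 𝕜) i j := by
    funext j
    rw [← hKH, Matrix.mul_apply]
  rw [this]
  unfold comb
  simp [Matrix.one_apply]

lemma comb_inv_right {N : ℕ} {W : Type*} [AddCommGroup W] [Module 𝕜 W]
    {H K : Matrix (Fin N) (Fin N) 𝕜} (hKH : K * H = 1) (v : Fin N → W) (i : Fin N) :
    comb (fun l => H l i) (fun l => comb (fun j => K j l) v) = v i := by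
  have h1 := comb_comb (fun l => H l i) (fun l j => K j l) v
  rw [h1]
  have : (fun j => ∑ l, H l i * K j l) = fun j => (1 : Matrix (Fin N) (Fin N) 𝕜) j i := by
    funext j
    rw [← hKH, Matrix.mul_apply]
    apply Finset.sum_congr rfl
    intro l _; ring
  rw [this]
  unfold comb
  simp [Matrix.one_apply]

lemma rr_mono {rr N : ℕ → ℕ} (h : ∀ k, rr (k + 1) = rr k + N k) : Monotone rr :=
  monotone_nat_of_le_succ fun k => by rw [h]; omega

lemma block_disjoint {rr N : ℕ → ℕ} (h : ∀ k, rr (k + 1) = rr k + N k) {k k' i j : ℕ}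
    (hi : i < N k) (hj : j < N k') (he : rr k + i = rr k' + j) : k = k' := by
  rcases lt_trichotomy k k' with hlt | heq | hgt
  · have h1 := rr_mono h (Nat.succ_le_of_lt hlt)
    have h2 := h k
    simp only [Nat.succ_eq_add_one] at h1
    omega
  · exact heq
  · have h1 := rr_mono h (Nat.succ_le_of_lt hgt)
    have h2 := h k'
    simp only [Nat.succ_eq_add_one] at h1
    omega

lemma zb_fb {V : Type*} [NormedAddCommGroup V] [NormedSpace 𝕜 V]
    (ξ : ℕ → StrongDual 𝕜 V) (f : ℕ → V)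
    (hbio : ∀ i j, ξ i (f j) = if i = j then (1 : 𝕜) else 0)
    {rr N : ℕ → ℕ} (hrr : ∀ k, rr (k + 1) = rr k + N k)
    (H K : ∀ k, Matrix (Fin (N k)) (Fin (N k)) 𝕜) (hHK : ∀ k, H k * K k = 1)
    (p p' : Σ k, Fin (N k)) :
    zb ξ (rr p'.1) (K p'.1) p'.2 (fb f (rr p.1) (H p.1) p.2) = if p = p' then 1 else 0 := by
  classical
  obtain ⟨k, l⟩ := p
  obtain ⟨k', l'⟩ := p'
  simp only
  unfold zb fb
  simp_rw [map_comb, hbio]
  by_cases hk : k = k'
  · subst hk
    have h1 : ∀ j : Fin (N k), ∑ i : Fin (N k), H k l i * (if rr k + (j : ℕ) = rr k + i then (1 : 𝕜) else 0)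
        = H k l j := by
      intro j
      rw [Finset.sum_eq_single j]
      · simp
      · intro i _ hij
        have : ¬ (rr k + (j : ℕ) = rr k + i) := fun h => hij (Fin.ext (by omega))
        rw [if_neg this, mul_zero]
      · intro h; exact absurd (Finset.mem_univ j) h
    simp_rw [h1]
    have h2 : ∑ x, K k x l' * H k l x = (H k * K k) l l' := by
      rw [Matrix.mul_apply]
      apply Finset.sum_congr rfl
      intro i _; ring
    rw [h2, hHK, Matrix.one_apply]
    by_cases hl : l = l'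
    · simp [hl]
    · simp [hl]
  · have hne : ¬ ((⟨k, l⟩ : Σ k, Fin (N k)) = ⟨k', l'⟩) := by
      intro h
      exact hk (congrArg Sigma.fst h)
    rw [if_neg hne]
    apply Finset.sum_eq_zero
    intro j _
    have : ∑ i : Fin (N k), H k l i * (if rr k' + (j : ℕ) = rr k + i then (1 : 𝕜) else 0) = 0 := by
      apply Finset.sum_eq_zero
      intro i _
      have : ¬ (rr k' + (j : ℕ) = rr k + i) := fun h => hk (block_disjoint hrr i.2 j.2 h.symm)
      simp [this]
    rw [this, mul_zero]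

lemma all_in {W : Type*} {rr N : ℕ → ℕ} (hrr0 : rr 0 = 0)
    (hrr : ∀ k, rr (k + 1) = rr k + N k) (hN : ∀ k, 0 < N k) (v : ℕ → W) (S : Set W)
    (h : ∀ k (i : Fin (N k)), v (rr k + i) ∈ S) (n : ℕ) : v n ∈ S := by
  have key : ∀ k, ∀ n < rr k, v n ∈ S := by
    intro k
    induction k with
    | zero => intro n hn; rw [hrr0] at hn; exact absurd hn (Nat.not_lt_zero n)
    | succ k ih =>
      intro n hn
      by_cases hnk : n < rr k
      · exact ih n hnk
      · rw [hrr] at hn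
        have := h k ⟨n - rr k, by omega⟩
        simp only at this
        rwa [show rr k + (n - rr k) = n by omega] at this
  have hk : ∀ k, k ≤ rr k := by
    intro k
    induction k with
    | zero => exact Nat.zero_le _
    | succ k ih => rw [hrr]; have := hN k; omega
  exact key (n + 1) n (lt_of_lt_of_le (Nat.lt_succ_self n) (hk (n + 1)))

end final

end Pool.Agent.Results.MP_0543b0_an.DualStrong

namespace Pool.Agent.Results.MP_0543b0_an.DualStrong

open Filter Topology

/-- Every Banach space with norm-separable dual has a biorthogonal system, complete on both sides,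
such that each subfamily of the functionals spans a weak-star closed subspace. -/
theorem result (𝕜 : Type*) [RCLike 𝕜] (E : Type*) [NormedAddCommGroup E] [NormedSpace 𝕜 E]
    [CompleteSpace E] (hinf : ¬ FiniteDimensional 𝕜 E)
    [TopologicalSpace.SeparableSpace (StrongDual 𝕜 E)] :
    ∃ (x : ℕ → E) (f : ℕ → StrongDual 𝕜 E),
      (∀ i j, f i (x j) = if i = j then (1 : 𝕜) else 0) ∧
      (Submodule.span 𝕜 (Set.range x)).topologicalClosure = ⊤ ∧
      (Submodule.span 𝕜 (Set.range f)).topologicalClosure = ⊤ ∧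
      ∀ n : ℕ → ℕ, StrictMono n →
        IsClosed ((fun φ : StrongDual 𝕜 E => StrongDual.toWeakDual φ) ''
          ((Submodule.span 𝕜 (Set.range fun k => f (n k))).topologicalClosure :
            Set (StrongDual 𝕜 E))) := by
  classical
  have hsep : TopologicalSpace.SeparableSpace E := separable_of_dual (𝕜 := 𝕜)
  set u := TopologicalSpace.denseSeq E with hu
  set g := TopologicalSpace.denseSeq (StrongDual 𝕜 E) with hg
  obtain ⟨x, f, hbio, ht⟩ := exists_system (𝕜 := 𝕜) hinf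
    (fun n => Sum.map u g (Equiv.natSumNatEquivNat.symm n))
  have hxd : Dense ((Submodule.span 𝕜 (Set.range x) : Submodule 𝕜 E) : Set E) := by
    apply (TopologicalSpace.denseRange_denseSeq E).mono
    rintro _ ⟨k, rfl⟩
    apply (ht (Equiv.natSumNatEquivNat (Sum.inl k))).1
    simp [hu]
  have hfd : Dense ((Submodule.span 𝕜 (Set.range f) : Submodule 𝕜 (StrongDual 𝕜 E)) :
      Set (StrongDual 𝕜 E)) := by
    apply (TopologicalSpace.denseRange_denseSeq (StrongDual 𝕜 E)).mono
    rintro _ ⟨k, rfl⟩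
    apply (ht (Equiv.natSumNatEquivNat (Sum.inr k))).2
    simp [hg]
  set ξ : ℕ → StrongDual 𝕜 (StrongDual 𝕜 E) :=
    fun n => NormedSpace.inclusionInDoubleDual 𝕜 E (x n) with hξ
  have hξa : ∀ n (φ : StrongDual 𝕜 E), ξ n φ = φ (x n) := fun n φ => rfl
  have hbio' : ∀ i j, ξ i (f j) = if i = j then (1 : 𝕜) else 0 := by
    intro i j
    rw [hξa, hbio]
    by_cases h : i = j
    · simp [h]
    · simp [h, Ne.symm h]
  have hnorm : ∀ φ : StrongDual 𝕜 E, ‖φ‖ = 1 → ∃ R, ∃ z : StrongDual 𝕜 (StrongDual 𝕜 E), ‖z‖ ≤ 1 ∧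
      (∀ w, (∀ n < R, ξ n w = 0) → z w = 0) ∧ 1 / 2 < ‖z φ‖ := by
    intro φ hφ
    obtain ⟨y, hy1, hy2⟩ := φ.exists_lt_apply_of_lt_opNorm
      (show (1 / 2 : ℝ) < ‖φ‖ by rw [hφ]; norm_num)
    have hopen : IsOpen {y : E | ‖y‖ < 1 ∧ 1 / 2 < ‖φ y‖} :=
      (isOpen_lt continuous_norm continuous_const).inter
        (isOpen_lt continuous_const φ.continuous.norm)
    obtain ⟨z, ⟨hz1, hz2⟩, hz3⟩ := hxd.inter_open_nonempty _ hopen ⟨y, hy1, hy2⟩
    have hz4 : z ∈ Submodule.span 𝕜 (x '' Set.univ) := by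
      rw [Set.image_univ]; exact hz3
    obtain ⟨R, hR⟩ := span_fin x _ hz4
    rw [Set.univ_inter] at hR
    refine ⟨R, NormedSpace.inclusionInDoubleDual 𝕜 E z, ?_, ?_, hz2⟩
    · exact (NormedSpace.double_dual_bound 𝕜 E z).trans hz1.le
    · intro w hw
      show w z = 0
      clear hz1 hz2 hz3 hz4
      induction hR using Submodule.span_induction with
      | mem y hy =>
        obtain ⟨m, hm, rfl⟩ := hy
        exact hw m hm
      | zero => exact map_zero w
      | add y z _ _ hy hz => rw [map_add, hy, hz, add_zero]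
      | smul a y _ hy => rw [map_smul, hy, smul_zero]
  obtain ⟨rr, N, H, K, hrr0, hrr, hN, hHK, hKH, hmain⟩ :=
    strong_transform ξ f hbio' hfd hnorm
  set X : (Σ k, Fin (N k)) → E := fun p => comb (fun i => K p.1 i p.2) (fun i => x (rr p.1 + i)) with hX
  set F : (Σ k, Fin (N k)) → StrongDual 𝕜 E := fun p => fb f (rr p.1) (H p.1) p.2 with hF
  have happ : ∀ (φ : StrongDual 𝕜 E) p, φ (X p) = zb ξ (rr p.1) (K p.1) p.2 φ := by
    intro φ p
    simp only [hX]
    rw [map_comb]
    rfl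
  have hFX : ∀ p p', F p (X p') = if p = p' then (1 : 𝕜) else 0 := by
    intro p p'
    rw [happ]
    exact zb_fb ξ f hbio' hrr H K hHK p p'
  have hXd : Dense ((Submodule.span 𝕜 (Set.range X) : Submodule 𝕜 E) : Set E) := by
    apply hxd.mono
    rw [SetLike.coe_subset_coe, Submodule.span_le]
    rintro _ ⟨n, rfl⟩
    apply all_in hrr0 hrr hN x
    intro k i
    have h1 := comb_inv_right (hKH k) (fun j => x (rr k + j)) i
    rw [← h1]
    unfold comb
    apply Submodule.sum_mem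
    intro l _
    exact Submodule.smul_mem _ _ (Submodule.subset_span ⟨⟨k, l⟩, rfl⟩)
  have hFd : Dense ((Submodule.span 𝕜 (Set.range F) : Submodule 𝕜 (StrongDual 𝕜 E)) :
      Set (StrongDual 𝕜 E)) := by
    apply hfd.mono
    rw [SetLike.coe_subset_coe, Submodule.span_le]
    rintro _ ⟨n, rfl⟩
    apply all_in hrr0 hrr hN f
    intro k i
    have h1 := comb_inv_left (hKH k) (fun j => f (rr k + j)) i
    rw [← h1]
    unfold comb
    apply Submodule.sum_mem
    intro l _
    exact Submodule.smul_mem _ _ (Submodule.subset_span ⟨⟨k, l⟩, rfl⟩)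
  have : Infinite (Σ k, Fin (N k)) :=
    Infinite.of_injective (fun k => (⟨k, ⟨0, hN k⟩⟩ : Σ k, Fin (N k)))
      (fun a b h => congrArg Sigma.fst h)
  obtain ⟨e⟩ : Nonempty (ℕ ≃ Σ k, Fin (N k)) := nonempty_equiv_of_countable
  refine ⟨X ∘ e, F ∘ e, ?_, ?_, ?_, ?_⟩
  · intro i j
    rw [Function.comp_apply, Function.comp_apply, hFX]
    by_cases h : i = j
    · simp [h]
    · have : ¬ (e i = e j) := fun h' => h (e.injective h')
      simp [h, this]
  · rw [e.surjective.range_comp X]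
    exact Submodule.dense_iff_topologicalClosure_eq_top.mp hXd
  · rw [e.surjective.range_comp F]
    exact Submodule.dense_iff_topologicalClosure_eq_top.mp hFd
  · intro n _
    set M : Set (Σ k, Fin (N k)) := Set.range (fun k => e (n k)) with hM
    have hrange : (Set.range fun k => (F ∘ e) (n k)) = F '' M := by
      rw [hM, ← Set.range_comp]; rfl
    rw [hrange]
    have hset : ((Submodule.span 𝕜 (F '' M)).topologicalClosure : Set (StrongDual 𝕜 E))
        = {φ | ∀ p, p ∉ M → φ (X p) = 0} := by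
      apply Set.Subset.antisymm
      · have hcl : IsClosed {φ : StrongDual 𝕜 E | ∀ p, p ∉ M → φ (X p) = 0} := by
          have : {φ : StrongDual 𝕜 E | ∀ p, p ∉ M → φ (X p) = 0}
              = ⋂ p, ⋂ (_ : p ∉ M), {φ : StrongDual 𝕜 E | φ (X p) = 0} := by
            ext φ; simp
          rw [this]
          refine isClosed_iInter fun p => isClosed_iInter fun _ => ?_
          exact isClosed_eq ((NormedSpace.inclusionInDoubleDual 𝕜 E (X p)).continuous) continuous_const
        rw [Submodule.topologicalClosure_coe]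
        apply closure_minimal _ hcl
        intro φ hφ p hp
        have hφ' : φ ∈ Submodule.span 𝕜 (F '' M) := hφ
        induction hφ' using Submodule.span_induction with
        | mem y hy =>
          obtain ⟨p', hp', rfl⟩ := hy
          rw [hFX, if_neg]
          rintro rfl; exact hp hp'
        | zero => rfl
        | add y z hy' hz' hy hz =>
          show y (X p) + z (X p) = 0
          rw [hy hy', hz hz', add_zero]
        | smul a y hy' hy =>
          show a • (y (X p)) = 0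
          rw [hy hy', smul_zero]
      · intro φ hφ
        exact hmain M φ (fun p hp => by rw [← happ]; exact hφ p hp)
    rw [hset]
    have himg : (fun φ : StrongDual 𝕜 E => StrongDual.toWeakDual φ) ''
        {φ | ∀ p, p ∉ M → φ (X p) = 0}
        = ⋂ p, ⋂ (_ : p ∉ M), {φ : WeakDual 𝕜 E | φ (X p) = 0} := by
      ext φ
      simp only [Set.mem_image, Set.mem_iInter]
      constructor
      · rintro ⟨ψ, hψ, rfl⟩ p hp
        exact hψ p hp
      · intro h
        exact ⟨WeakDual.toStrongDual φ, fun p hp => h p hp, rfl⟩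
    rw [himg]
    refine isClosed_iInter fun p => isClosed_iInter fun _ => ?_
    exact isClosed_eq (WeakDual.eval_continuous (X p)) continuous_const

end Pool.Agent.Results.MP_0543b0_an.DualStrong
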